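import Pool.Agent.H414R3.Gabor

set_option autoImplicit false
open MeasureTheory Set
open scoped ComplexConjugate ENNReal

namespace Pool.Agent.H414R3

/-- the standard character of the line -/
noncomputable def e1 (t : ℝ) : ℂ := Complex.exp (2 * Real.pi * Complex.I * (t : ℂ))

theorem e1_add (s t : ℝ) : e1 (s + t) = e1 s * e1 t := by
  unfold e1
  rw [← Complex.exp_add]
  congr 1
  push_cast
  ring

theorem e1_zero : e1 0 = 1 := by
  unfold e1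
  simp

theorem e1_int (n : ℤ) : e1 (n : ℝ) = 1 := by
  unfold e1
  rw [Complex.exp_eq_one_iff]
  refine ⟨n, ?_⟩
  push_cast
  ring

theorem e1_eq_one_iff (t : ℝ) : e1 t = 1 ↔ ∃ n : ℤ, t = n := by
  unfold e1
  rw [Complex.exp_eq_one_iff]
  constructor
  · rintro ⟨n, hn⟩
    refine ⟨n, ?_⟩
    have h1 : (2 * Real.pi * Complex.I : ℂ) ≠ 0 := by
      simp [Real.pi_ne_zero]
    have h2 : (t : ℂ) = n := by
      apply mul_left_cancel₀ h1
      rw [hn]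
      ring
    exact_mod_cast h2
  · rintro ⟨n, rfl⟩
    refine ⟨n, ?_⟩
    push_cast
    ring

theorem norm_e1 (t : ℝ) : ‖e1 t‖ = 1 := by
  unfold e1
  rw [Complex.norm_exp]
  simp

theorem e1_ne_zero (t : ℝ) : e1 t ≠ 0 := by
  unfold e1
  exact Complex.exp_ne_zero _

theorem e1_nat_mul (n : ℕ) (t : ℝ) : e1 (n * t) = e1 t ^ n := by
  unfold e1
  rw [← Complex.exp_nat_mul]
  congr 1
  push_cast
  ring

theorem e1_half : e1 (1 / 2) = -1 := by
  unfold e1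
  have : (2 * Real.pi * Complex.I * ((1 / 2 : ℝ) : ℂ)) = Real.pi * Complex.I := by
    push_cast
    ring
  rw [this, Complex.exp_pi_mul_I]

/-- if `z` is `4` modulo `8` then `e1 (z/8) = -1` -/
theorem e1_eighth (z : ℤ) (hz : (z - 4) % 8 = 0) : e1 ((z : ℝ) / 8) = -1 := by
  obtain ⟨n, hn⟩ : ∃ n, z = 4 + 8 * n := ⟨(z - 4) / 8, by omega⟩
  have : ((z : ℝ) / 8) = 1 / 2 + (n : ℝ) := by
    rw [hn]
    push_cast
    ring
  rw [this, e1_add, e1_half, e1_int]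
  ring

theorem char_sum (N : ℕ) (hN : 0 < N) (z : ℤ) :
    ∑ r ∈ Finset.range N, e1 ((r : ℝ) * (z / N)) = if (N : ℤ) ∣ z then (N : ℂ) else 0 := by
  have hN' : (N : ℝ) ≠ 0 := by positivity
  simp_rw [e1_nat_mul]
  split_ifs with h
  · obtain ⟨w, rfl⟩ := h
    have : (((N : ℤ) * w : ℤ) : ℝ) / N = w := by
      push_cast
      field_simp
    rw [this, e1_int]
    simp
  · have hne : e1 ((z : ℝ) / N) ≠ 1 := by
      intro hc
      rw [e1_eq_one_iff] at hc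
      obtain ⟨n, hn⟩ := hc
      apply h
      refine ⟨n, ?_⟩
      rw [div_eq_iff hN'] at hn
      have : (z : ℝ) = ((n * N : ℤ) : ℝ) := by
        push_cast
        exact hn
      have h2 : z = n * N := by exact_mod_cast this
      rw [h2, mul_comm]
    rw [geom_sum_eq hne]
    have : e1 ((z : ℝ) / N) ^ N = 1 := by
      rw [← e1_nat_mul]
      have : (N : ℝ) * (z / N) = z := by field_simp
      rw [this, e1_int]
    rw [this]
    simp

theorem ex_zv {b : EuclideanSpace ℝ (Fin 2)} (m : Fin 2 → ℤ) :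
    ex b (zv m) = e1 (b 0 * m 0 + b 1 * m 1) := by
  unfold ex e1
  rw [PiLp.inner_apply, Fin.sum_univ_two]
  simp [mul_comm]

/-- extraction of a residue class by finite Fourier inversion -/
theorem extract (E : Finset (Fin 2 → ℤ)) (Ψ : (Fin 2 → ℤ) → ℂ) (N₁ N₂ : ℕ) (h₁ : 0 < N₁)
    (h₂ : 0 < N₂)
    (h : ∀ r q : ℤ, ∑ m ∈ E, Ψ m * e1 (r * (m 0 / N₁)) * e1 (q * (m 1 / N₂)) = 0)
    (x y : ℤ) :
    ∑ m ∈ E with (N₁ : ℤ) ∣ m 0 - x ∧ (N₂ : ℤ) ∣ m 1 - y, Ψ m = 0 := by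
  have key : ∑ r ∈ Finset.range N₁, ∑ q ∈ Finset.range N₂,
      e1 (-(r * ((x : ℝ) / N₁))) * e1 (-(q * ((y : ℝ) / N₂))) *
        (∑ m ∈ E, Ψ m * e1 (((r : ℤ) : ℝ) * (m 0 / N₁)) * e1 (((q : ℤ) : ℝ) * (m 1 / N₂))) = 0 := by
    apply Finset.sum_eq_zero
    intro r _
    apply Finset.sum_eq_zero
    intro q _
    rw [h, mul_zero]
  have h3 : ∑ m ∈ E, Ψ m * (∑ r ∈ Finset.range N₁, e1 ((r : ℝ) * (((m 0 - x : ℤ) : ℝ) / N₁))) *
      (∑ q ∈ Finset.range N₂, e1 ((q : ℝ) * (((m 1 - y : ℤ) : ℝ) / N₂))) = 0 := by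
    rw [← key]
    have h4 : ∀ m : Fin 2 → ℤ, Ψ m *
        (∑ r ∈ Finset.range N₁, e1 ((r : ℝ) * (((m 0 - x : ℤ) : ℝ) / N₁))) *
        (∑ q ∈ Finset.range N₂, e1 ((q : ℝ) * (((m 1 - y : ℤ) : ℝ) / N₂))) =
        ∑ r ∈ Finset.range N₁, ∑ q ∈ Finset.range N₂,
          Ψ m * e1 ((r : ℝ) * (((m 0 - x : ℤ) : ℝ) / N₁)) *
            e1 ((q : ℝ) * (((m 1 - y : ℤ) : ℝ) / N₂)) := by
      intro m
      rw [mul_assoc, Finset.sum_mul_sum, Finset.mul_sum]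
      apply Finset.sum_congr rfl
      intro r _
      rw [Finset.mul_sum]
      apply Finset.sum_congr rfl
      intro q _
      ring
    simp_rw [h4]
    rw [Finset.sum_comm]
    apply Finset.sum_congr rfl
    intro r _
    rw [Finset.sum_comm]
    apply Finset.sum_congr rfl
    intro q _
    rw [Finset.mul_sum]
    apply Finset.sum_congr rfl
    intro m _
    have a1 : (r : ℝ) * (((m 0 - x : ℤ) : ℝ) / N₁) =
        -(r * ((x : ℝ) / N₁)) + ((r : ℤ) : ℝ) * (m 0 / N₁) := by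
      push_cast
      ring
    have a2 : (q : ℝ) * (((m 1 - y : ℤ) : ℝ) / N₂) =
        -(q * ((y : ℝ) / N₂)) + ((q : ℤ) : ℝ) * (m 1 / N₂) := by
      push_cast
      ring
    rw [a1, a2, e1_add, e1_add]
    ring
  simp_rw [char_sum N₁ h₁, char_sum N₂ h₂] at h3
  rw [Finset.sum_filter]
  have hN1 : (N₁ : ℂ) ≠ 0 := by
    exact_mod_cast h₁.ne'
  have hN2 : (N₂ : ℂ) ≠ 0 := by
    exact_mod_cast h₂.ne'
  have h4 : ∑ m ∈ E, Ψ m * (if (N₁ : ℤ) ∣ m 0 - x then (N₁ : ℂ) else 0) *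
      (if (N₂ : ℤ) ∣ m 1 - y then (N₂ : ℂ) else 0) =
      (N₁ * N₂ : ℂ) * ∑ m ∈ E, if (N₁ : ℤ) ∣ m 0 - x ∧ (N₂ : ℤ) ∣ m 1 - y then Ψ m else 0 := by
    rw [Finset.mul_sum]
    apply Finset.sum_congr rfl
    intro m _
    by_cases a : (N₁ : ℤ) ∣ m 0 - x <;> by_cases b : (N₂ : ℤ) ∣ m 1 - y <;> simp [a, b]
    ring
  rw [h4] at h3
  rcases mul_eq_zero.1 h3 with h5 | h5
  · exact absurd h5 (mul_ne_zero hN1 hN2)
  · exact h5

end Pool.Agent.H414R3
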