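import Pool.Agent.H414R3.Lib

set_option autoImplicit false
open MeasureTheory Set
open scoped ComplexConjugate ENNReal

namespace Pool.Agent.H414R3

attribute [local instance] instMeasureSpaceUnitAddCircle

/-- section of the torus -/
noncomputable def sec {d : ℕ} (t : UnitAddTorus (Fin d)) : EuclideanSpace ℝ (Fin d) :=
  WithLp.toLp 2 (fun i => ((AddCircle.equivIoc (1 : ℝ) (-1) (t i)).1 : ℝ))

theorem mp_toLp_box (d : ℕ) : MeasurePreserving
    (fun x : Fin d → ℝ => (WithLp.toLp 2 x : EuclideanSpace ℝ (Fin d)))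
    (volume.restrict (box d)) (volume.restrict (cell 0)) := by
  have h1 : MeasurePreserving
    (fun x : Fin d → ℝ => (WithLp.toLp 2 x : EuclideanSpace ℝ (Fin d))) volume volume :=
    (EuclideanSpace.volume_preserving_symm_measurableEquiv_toLp (Fin d)).symm
  have h2 := h1.restrict_preimage (measurableSet_cell (0 : Fin d → ℤ))
  have h3 : (fun x : Fin d → ℝ => (WithLp.toLp 2 x : EuclideanSpace ℝ (Fin d))) ⁻¹' cell 0
      = box d := by
    rw [← cell_zero_eq]
    ext x
    simp
  rw [h3] at h2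
  exact h2

theorem mp_sec (d : ℕ) : MeasurePreserving (sec (d := d))
    (volume : Measure (UnitAddTorus (Fin d))) (volume.restrict (cell 0)) := by
  have h1 := UnitAddTorus.measurePreserving_equivPiIoc (fun _ : Fin d => (-1 : ℝ))
  have h2 : MeasurePreserving (Subtype.val : box d → (Fin d → ℝ))
      (Measure.comap Subtype.val (volume : Measure (Fin d → ℝ))) (volume.restrict (box d)) :=
    measurePreserving_subtype_coe (measurableSet_box d)
  exact (mp_toLp_box d).comp (h2.comp h1)

theorem me_sec (d : ℕ) : MeasurableEmbedding (sec (d := d)) := by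
  have h1 := (UnitAddTorus.measurableEquivPiIoc (fun _ : Fin d => (-1 : ℝ))).measurableEmbedding
  have h2 : MeasurableEmbedding (Subtype.val : box d → (Fin d → ℝ)) :=
    MeasurableEmbedding.subtype_coe (measurableSet_box d)
  have h3 : MeasurableEmbedding
      (fun x : Fin d → ℝ => (WithLp.toLp 2 x : EuclideanSpace ℝ (Fin d))) :=
    (MeasurableEquiv.toLp 2 (Fin d → ℝ)).measurableEmbedding
  exact h3.comp (h2.comp h1)

theorem mFourier_sec {d : ℕ} (n : Fin d → ℤ) (t : UnitAddTorus (Fin d)) :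
    UnitAddTorus.mFourier (-n) t = conj (ex (zv n) (sec t)) := by
  rw [UnitAddTorus.mFourier_neg]
  congr 1
  have h := ex_zv_eq n (fun i => ((AddCircle.equivIoc (1 : ℝ) (-1) (t i)).1 : ℝ))
  unfold sec
  rw [← h]
  congr 1
  funext i
  exact (AddCircle.coe_equivIoc (p := (1 : ℝ)) (a := -1) (y := t i)).symm

theorem fourier_unique {d : ℕ} (u : EuclideanSpace ℝ (Fin d) → ℂ)
    (hu : MemLp u 2 (volume.restrict (cell 0)))
    (h : ∀ n : Fin d → ℤ, ∫ x in cell 0, u x * conj (ex (zv n) x) = 0) :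
    ∀ᵐ x ∂(volume.restrict (cell (0 : Fin d → ℤ))), u x = 0 := by
  have hU : MemLp (u ∘ sec) 2 (volume : Measure (UnitAddTorus (Fin d))) :=
    hu.comp_measurePreserving (mp_sec d)
  have hG : UnitAddTorus.mFourierBasis.repr (hU.toLp (u ∘ sec)) = 0 := by
    ext n
    rw [UnitAddTorus.mFourierBasis_repr]
    unfold UnitAddTorus.mFourierCoeff
    have h3 : ∫ t : UnitAddTorus (Fin d), UnitAddTorus.mFourier (-n) t • (hU.toLp (u ∘ sec)) t
        = ∫ t : UnitAddTorus (Fin d), (fun x => u x * conj (ex (zv n) x)) (sec t) := by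
      apply integral_congr_ae
      filter_upwards [hU.coeFn_toLp] with t ht
      rw [smul_eq_mul, ht, mFourier_sec, mul_comm]
      rfl
    rw [h3, (mp_sec d).integral_comp (me_sec d) (fun x => u x * conj (ex (zv n) x)), h n]
    rfl
  have hG0 : hU.toLp (u ∘ sec) = 0 := (LinearIsometryEquiv.map_eq_zero_iff _).1 hG
  have h2 := hU.coeFn_toLp
  rw [hG0] at h2
  have h4 : ∀ᵐ t : UnitAddTorus (Fin d), u (sec t) = 0 := by
    filter_upwards [h2.symm.trans (Lp.coeFn_zero _ _ _)] with t ht
    exact ht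
  rw [← (mp_sec d).map_eq, (me_sec d).ae_map_iff]
  exact h4

theorem integral_ex_cell {d : ℕ} (n : Fin d → ℤ) :
    ∫ x in cell 0, ex (zv n) x = if n = 0 then 1 else 0 := by
  have h1 := UnitAddTorus.mFourierBasis.repr_self (𝕜 := ℂ) (0 : Fin d → ℤ)
  have h2 := UnitAddTorus.mFourierBasis_repr
    (UnitAddTorus.mFourierBasis (0 : Fin d → ℤ)) (-n)
  rw [h1, UnitAddTorus.coe_mFourierBasis] at h2
  unfold UnitAddTorus.mFourierLp at h2
  rw [UnitAddTorus.mFourierCoeff_toLp] at h2
  unfold UnitAddTorus.mFourierCoeff at h2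
  have h3 : ∫ t : UnitAddTorus (Fin d), UnitAddTorus.mFourier (- -n) t •
      UnitAddTorus.mFourier (0 : Fin d → ℤ) t =
      ∫ t : UnitAddTorus (Fin d), (fun x => conj (ex (zv (-n)) x)) (sec t) := by
    apply integral_congr_ae
    filter_upwards with t
    rw [mFourier_sec, UnitAddTorus.mFourier_zero]
    simp
  rw [h3, (mp_sec d).integral_comp (me_sec d) (fun x => conj (ex (zv (-n)) x))] at h2
  have h4 : ∀ x : EuclideanSpace ℝ (Fin d), conj (ex (zv (-n)) x) = ex (zv n) x := by
    intro x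
    rw [conj_ex, zv_neg, neg_neg]
  simp_rw [h4] at h2
  rw [← h2]
  by_cases hn : n = 0
  · subst hn
    simp [lp.single_apply]
  · rw [lp.single_apply, if_neg hn]
    simp [hn]

end Pool.Agent.H414R3
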