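import Pool.Agent.H414R3.Fourier

set_option autoImplicit false
open MeasureTheory Set
open scoped ComplexConjugate ENNReal

namespace Pool.Agent.H414R3

theorem step_eq_sum {d : ℕ} (c : (Fin d → ℤ) → ℂ) (F : Finset (Fin d → ℤ))
    (hc : ∀ m, m ∉ F → c m = 0) :
    (fun x : EuclideanSpace ℝ (Fin d) => c (cel x)) =
      fun x => ∑ m ∈ F, (cell m).indicator (fun _ => c m) x := by
  funext x
  by_cases hx : cel x ∈ F
  · rw [Finset.sum_eq_single_of_mem (cel x) hx]
    · rw [indicator_of_mem]
      rfl
    · intro m _ hm
      rw [indicator_of_notMem]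
      intro h
      exact hm h.symm
  · rw [hc _ hx, Finset.sum_eq_zero]
    intro m hm
    rw [indicator_of_notMem]
    intro h
    exact hx (h ▸ hm)

theorem memLp_step {d : ℕ} (c : (Fin d → ℤ) → ℂ) (F : Finset (Fin d → ℤ))
    (hc : ∀ m, m ∉ F → c m = 0) (p : ℝ≥0∞) :
    MemLp (fun x : EuclideanSpace ℝ (Fin d) => c (cel x)) p volume := by
  rw [step_eq_sum c F hc]
  apply memLp_finsetSum
  intro m _
  apply memLp_indicator_const p (measurableSet_cell m) (c m)
  right
  rw [volume_cell]
  exact ENNReal.one_ne_top

theorem integrable_step_mul {d : ℕ} (c : (Fin d → ℤ) → ℂ) (F : Finset (Fin d → ℤ))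
    (hc : ∀ m, m ∉ F → c m = 0) (ζ : EuclideanSpace ℝ (Fin d)) :
    Integrable (fun x : EuclideanSpace ℝ (Fin d) => c (cel x) * ex ζ x) := by
  have h1 : Integrable (fun x : EuclideanSpace ℝ (Fin d) => c (cel x)) :=
    memLp_one_iff_integrable.1 (memLp_step c F hc 1)
  exact h1.mul_bdd (c := 1) (continuous_ex ζ).aestronglyMeasurable
    (Filter.Eventually.of_forall (fun x => (norm_ex ζ x).le))

theorem integral_step {d : ℕ} (c : (Fin d → ℤ) → ℂ) (F : Finset (Fin d → ℤ))
    (hc : ∀ m, m ∉ F → c m = 0) (ζ : EuclideanSpace ℝ (Fin d)) :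
    ∫ x, c (cel x) * ex ζ x = (∑ m ∈ F, c m * ex ζ (zv m)) * ∫ x in cell 0, ex ζ x := by
  rw [integral_cells _ F _ (integrable_step_mul c F hc ζ), Finset.sum_mul]
  · apply Finset.sum_congr rfl
    intro m _
    rw [← integral_const_mul]
    apply setIntegral_congr_fun (measurableSet_cell 0)
    intro x hx
    have hx' : cel x = 0 := hx
    simp only
    rw [cel_add, hx', zero_add, ex_add_right]
    ring
  · intro x hx
    rw [hc _ hx, zero_mul]

/-- the modulated translates of the window with values `g` on the unit cells -/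
noncomputable def W {d : ℕ} (g : (Fin d → ℤ) → ℂ) (t : Fin d → ℤ)
    (θ x : EuclideanSpace ℝ (Fin d)) : ℂ := g (cel x - t) * ex θ x

theorem inner_W {d : ℕ} (g : (Fin d → ℤ) → ℂ) (F : Finset (Fin d → ℤ))
    (hg : ∀ m, m ∉ F → g m = 0) (t t' : Fin d → ℤ) (θ θ' : EuclideanSpace ℝ (Fin d)) :
    ∫ x, W g t θ x * conj (W g t' θ' x) =
      (∑ k ∈ F, g k * conj (g (k + t - t')) * ex (θ - θ') (zv (k + t))) *
        ∫ x in cell 0, ex (θ - θ') x := by
  have h1 : ∀ x : EuclideanSpace ℝ (Fin d), W g t θ x * conj (W g t' θ' x) =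
      (fun m => g (m - t) * conj (g (m - t'))) (cel x) * ex (θ - θ') x := by
    intro x
    unfold W
    rw [map_mul, conj_ex, sub_eq_add_neg θ, ex_add_left]
    ring
  simp_rw [h1]
  rw [integral_step (fun m => g (m - t) * conj (g (m - t'))) (F.image (fun k => k + t))]
  · congr 1
    rw [Finset.sum_image]
    · apply Finset.sum_congr rfl
      intro k _
      simp
    · intro a _ b _ hab
      simpa using hab
  · intro m hm
    have : m - t ∉ F := by
      intro h
      apply hm
      rw [Finset.mem_image]
      exact ⟨m - t, h, by simp⟩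
    rw [hg _ this, zero_mul]

theorem cell_transfer {d : ℕ} (f : EuclideanSpace ℝ (Fin d) → ℂ)
    (h : ∀ᵐ x ∂(volume.restrict (cell (0 : Fin d → ℤ))), ∀ m : Fin d → ℤ, f (x + zv m) = 0) :
    f =ᵐ[volume] 0 := by
  have h1 : ∀ m : Fin d → ℤ, ∀ᵐ x ∂(volume.restrict (cell m)), f x = 0 := by
    intro m
    have h2 := (mp_add (zv m)).restrict_preimage (measurableSet_cell m)
    have h3 := preimage_cell 0 m
    rw [zero_add] at h3
    rw [h3] at h2
    rw [← h2.map_eq, (me_add (zv m)).ae_map_iff]
    filter_upwards [h] with x hx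
    exact hx m
  have h2 := (ae_restrict_iUnion_iff (μ := volume) (fun m : Fin d → ℤ => cell m)
    (fun x => f x = 0)).2 h1
  have h3 : (⋃ m : Fin d → ℤ, cell m) = univ := by
    ext x
    simp only [mem_iUnion, mem_univ, iff_true]
    exact ⟨cel x, rfl⟩
  rw [h3, Measure.restrict_univ] at h2
  exact h2

theorem gabor_complete {d : ℕ} (g : (Fin d → ℤ) → ℂ) (F : Finset (Fin d → ℤ))
    (hg : ∀ m, m ∉ F → g m = 0) (P : Set ((Fin d → ℤ) × EuclideanSpace ℝ (Fin d)))
    (hP : P.Countable)
    (hcomp : ∀ G : (Fin d → ℤ) → ℂ,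
      (∀ p ∈ P, ∑ k ∈ F, G (k + p.1) * conj (g k * ex p.2 (zv (k + p.1))) = 0) → ∀ m, G m = 0)
    (f : EuclideanSpace ℝ (Fin d) → ℂ) (hf : MemLp f 2 volume)
    (horth : ∀ p ∈ P, ∀ n : Fin d → ℤ, ∫ x, f x * conj (W g p.1 (p.2 + zv n) x) = 0) :
    f =ᵐ[volume] 0 := by
  apply cell_transfer
  have key : ∀ p ∈ P, ∀ᵐ x ∂(volume.restrict (cell (0 : Fin d → ℤ))),
      ∑ k ∈ F, f (x + zv (k + p.1)) * conj (g k * ex p.2 (zv (k + p.1))) = 0 := by
    intro p hp
    have hu : MemLp (fun x => ∑ k ∈ F, f (x + zv (k + p.1)) *
        conj (g k * ex p.2 (x + zv (k + p.1)))) 2 (volume.restrict (cell (0 : Fin d → ℤ))) := by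
      apply memLp_finsetSum
      intro k _
      have h1 : MemLp (fun x => f (x + zv (k + p.1))) 2 (volume.restrict (cell (0 : Fin d → ℤ))) :=
        (hf.comp_measurePreserving (mp_add (zv (k + p.1)))).restrict _
      refine MemLp.of_le_mul (c := ‖g k‖) h1 ?_ ?_
      · apply h1.aestronglyMeasurable.mul
        apply Continuous.aestronglyMeasurable
        exact Complex.continuous_conj.comp (continuous_const.mul
          ((continuous_ex p.2).comp (continuous_id.add continuous_const)))
      · filter_upwards with x
        rw [norm_mul, RCLike.norm_conj, norm_mul, norm_ex, mul_one, mul_comm]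
    have h0 : ∀ n : Fin d → ℤ, ∫ x in cell (0 : Fin d → ℤ), (∑ k ∈ F, f (x + zv (k + p.1)) *
        conj (g k * ex p.2 (x + zv (k + p.1)))) * conj (ex (zv n) x) = 0 := by
      intro n
      rw [← horth p hp n]
      have hW : MemLp (fun x => conj (W g p.1 (p.2 + zv n) x)) 2 volume := by
        have h2 : MemLp (fun x : EuclideanSpace ℝ (Fin d) => (fun m => g (m - p.1)) (cel x)) 2
            volume := by
          apply memLp_step (fun m => g (m - p.1)) (F.image (fun k => k + p.1))
          intro m hm
          apply hg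
          intro h
          apply hm
          rw [Finset.mem_image]
          exact ⟨m - p.1, h, by simp⟩
        refine MemLp.of_le_mul (c := 1) h2 ?_ ?_
        · apply (Complex.continuous_conj.comp_aestronglyMeasurable)
          unfold W
          exact h2.aestronglyMeasurable.mul (continuous_ex _).aestronglyMeasurable
        · filter_upwards with x
          unfold W
          rw [RCLike.norm_conj, norm_mul, norm_ex, mul_one, one_mul]
      have hint : Integrable (fun x => f x * conj (W g p.1 (p.2 + zv n) x)) :=
        hf.integrable_mul hW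
      rw [integral_cells _ (F.image (fun k => k + p.1)) _ hint]
      · rw [Finset.sum_image]
        · rw [← integral_finsetSum]
          · apply setIntegral_congr_fun (measurableSet_cell 0)
            intro x hx
            have hx' : cel x = 0 := hx
            simp only
            rw [Finset.sum_mul]
            apply Finset.sum_congr rfl
            intro k _
            unfold W
            rw [cel_add, hx', zero_add, add_sub_cancel_right, ex_add_left,
              ex_add_right (zv n), ex_zv_zv, mul_one]
            simp only [map_mul]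
            ring
          · intro k _
            exact ((mp_add (zv (k + p.1))).integrable_comp_of_integrable hint).integrableOn
        · intro a _ b _ hab
          simpa using hab
      · intro x hx
        have : cel x - p.1 ∉ F := by
          intro h
          apply hx
          rw [Finset.mem_image]
          exact ⟨cel x - p.1, h, by simp⟩
        unfold W
        rw [hg _ this]
        simp
    have h1 := fourier_unique _ hu h0
    filter_upwards [h1] with x hx
    have h2 : ∀ k : Fin d → ℤ, f (x + zv (k + p.1)) * conj (g k * ex p.2 (x + zv (k + p.1))) =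
        (f (x + zv (k + p.1)) * conj (g k * ex p.2 (zv (k + p.1)))) * conj (ex p.2 x) := by
      intro k
      rw [ex_add_right]
      simp only [map_mul]
      ring
    simp_rw [h2] at hx
    rw [← Finset.sum_mul] at hx
    rcases mul_eq_zero.1 hx with h3 | h3
    · exact h3
    · exact absurd h3 ((map_ne_zero _).2 (ex_ne_zero _ _))
  have key2 := (ae_ball_iff hP).2 key
  filter_upwards [key2] with x hx
  exact hcomp (fun m => f (x + zv m)) hx

end Pool.Agent.H414R3
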