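import Pool.Agent.H414R3.Char

set_option autoImplicit false
open MeasureTheory Set
open scoped ComplexConjugate ENNReal

namespace Pool.Agent.H414R3

theorem integral_e1_ne_zero (s : ℝ) (hs : |s| < 1) :
    ∫ t in Ioc (-1 : ℝ) (-1 + 1), e1 (s * t) ≠ 0 := by
  have h0 : (-1 : ℝ) + 1 = 0 := by norm_num
  rw [h0, ← intervalIntegral.integral_of_le (by norm_num)]
  by_cases h : s = 0
  · subst h
    simp [e1_zero]
  · have h1 : ∀ t : ℝ, e1 (s * t) = Complex.exp ((2 * Real.pi * Complex.I * s) * t) := by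
      intro t
      unfold e1
      congr 1
      push_cast
      ring
    simp_rw [h1]
    have hc : (2 * Real.pi * Complex.I * s : ℂ) ≠ 0 := by
      have : (s : ℂ) ≠ 0 := by exact_mod_cast h
      simp [Real.pi_ne_zero, this]
    rw [integral_exp_mul_complex hc]
    intro h2
    rw [div_eq_zero_iff] at h2
    rcases h2 with h2 | h2
    · have h3 : e1 (-s) = 1 := by
        unfold e1
        have : (2 * Real.pi * Complex.I * ((-s : ℝ) : ℂ)) = (2 * Real.pi * Complex.I * s : ℂ) * ((-1 : ℝ) : ℂ) := by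
          push_cast
          ring
        rw [this]
        have h4 : Complex.exp ((2 * Real.pi * Complex.I * s : ℂ) * ((0 : ℝ) : ℂ)) = 1 := by simp
        rw [h4] at h2
        exact (sub_eq_zero.1 h2).symm
      rw [e1_eq_one_iff] at h3
      obtain ⟨n, hn⟩ := h3
      have h5 : |(n : ℝ)| < 1 := by
        rw [← hn, abs_neg]
        exact hs
      have h6 : n = 0 := by
        have : |n| < 1 := by exact_mod_cast h5
        rw [Int.abs_lt_one_iff] at this
        exact this
      rw [h6] at hn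
      apply h
      simp at hn
      exact hn
    · exact hc h2

theorem kappa_ne_zero {d : ℕ} (ζ : EuclideanSpace ℝ (Fin d)) (h : ∀ i, |ζ i| < 1) :
    ∫ x in cell 0, ex ζ x ≠ 0 := by
  have h1 : ∫ x in cell (0 : Fin d → ℤ), ex ζ x =
      ∫ y in box d, ∏ i, e1 (ζ i * y i) := by
    rw [← cell_zero_eq]
    have h2 : ∀ x : EuclideanSpace ℝ (Fin d), ex ζ x =
        (fun y : Fin d → ℝ => ∏ i, e1 (ζ i * y i)) (WithLp.ofLp x) := by
      intro x
      unfold ex e1
      simp only
      rw [← Complex.exp_sum, ← Finset.mul_sum]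
      congr 2
      rw [PiLp.inner_apply]
      push_cast
      apply Finset.sum_congr rfl
      intro i _
      simp [mul_comm]
    simp_rw [h2]
    exact (mp_ofLp d).setIntegral_preimage_emb (me_ofLp d)
      (fun y : Fin d → ℝ => ∏ i, e1 (ζ i * y i)) (box d)
  rw [h1]
  have h3 : box d = Set.pi Set.univ (fun _ => Ioc (-1 : ℝ) (-1 + 1)) := by
    ext x; simp [box]
  rw [h3, volume_pi, Measure.restrict_pi_pi,
    integral_fintype_prod_eq_prod (𝕜 := ℂ) (fun i (t : ℝ) => e1 (ζ i * t))]
  rw [Finset.prod_ne_zero_iff]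
  intro i _
  exact integral_e1_ne_zero _ (h i)

theorem norm_e1_sub_one_le (t : ℝ) : ‖e1 t - 1‖ ≤ 2 * Real.pi * |t| := by
  have h := Real.norm_exp_I_mul_ofReal_sub_one_le (x := 2 * Real.pi * t)
  unfold e1
  have h2 : (2 * Real.pi * Complex.I * (t : ℂ)) = Complex.I * ((2 * Real.pi * t : ℝ) : ℂ) := by
    push_cast
    ring
  rw [h2]
  refine h.trans ?_
  rw [Real.norm_eq_abs, abs_mul, abs_of_pos (by positivity : (0 : ℝ) < 2 * Real.pi)]

/-- the geometric sum does not vanish near integers -/
theorem geo_ne_zero (k : ℕ) (hk : 0 < k) (z : ℤ) (s : ℝ) (hs : |s| < 1 / k) :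
    ∑ a : Fin k, e1 ((z + s) * (a.val : ℝ)) ≠ 0 := by
  have hk' : (0 : ℝ) < k := by exact_mod_cast hk
  have h1 : ∀ a : Fin k, e1 ((z + s) * (a.val : ℝ)) = e1 s ^ a.val := by
    intro a
    rw [← e1_nat_mul]
    have : ((z + s) * (a.val : ℝ)) = ((z * a.val : ℤ) : ℝ) + (a.val : ℝ) * s := by
      push_cast
      ring
    rw [this, e1_add, e1_int, one_mul]
  simp_rw [h1]
  rw [← Finset.sum_range (fun a => e1 s ^ a)]
  have hks : |(k : ℝ) * s| < 1 := by
    rw [abs_mul, abs_of_pos hk']
    rw [lt_div_iff₀ hk'] at hs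
    linarith
  by_cases h : s = 0
  · subst h
    rw [e1_zero]
    simp
    omega
  · have hs1 : |s| < 1 := by
      refine hs.trans_le ?_
      rw [div_le_one hk']
      exact_mod_cast hk
    have aux : ∀ r : ℝ, |r| < 1 → r ≠ 0 → e1 r ≠ 1 := by
      intro r hr hr0 hc
      rw [e1_eq_one_iff] at hc
      obtain ⟨n, hn⟩ := hc
      have h6 : n = 0 := by
        have : |n| < 1 := by
          rw [hn] at hr
          exact_mod_cast hr
        rw [Int.abs_lt_one_iff] at this
        exact this
      rw [h6] at hn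
      apply hr0
      simpa using hn
    rw [geom_sum_eq (aux s hs1 h), ← e1_nat_mul]
    apply div_ne_zero
    · rw [sub_ne_zero]
      exact aux _ hks (mul_ne_zero hk'.ne' h)
    · rw [sub_ne_zero]
      exact aux s hs1 h

end Pool.Agent.H414R3
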