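import Mathlib

set_option autoImplicit false
open MeasureTheory Set
open scoped ComplexConjugate ENNReal

namespace Pool.Agent.H414R3

/-- integer vector as a vector of the Euclidean space -/
noncomputable def zv {d : ℕ} (m : Fin d → ℤ) : EuclideanSpace ℝ (Fin d) :=
  WithLp.toLp 2 (fun i => (m i : ℝ))

@[simp] theorem zv_apply {d : ℕ} (m : Fin d → ℤ) (i : Fin d) : zv m i = (m i : ℝ) := rfl

theorem zv_add {d : ℕ} (m n : Fin d → ℤ) : zv (m + n) = zv m + zv n := by
  ext i; simp

theorem zv_sub {d : ℕ} (m n : Fin d → ℤ) : zv (m - n) = zv m - zv n := by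
  ext i; simp

theorem zv_neg {d : ℕ} (m : Fin d → ℤ) : zv (-m) = - zv m := by
  ext i; simp

@[simp] theorem zv_zero {d : ℕ} : zv (0 : Fin d → ℤ) = 0 := by
  ext i; simp

theorem zv_injective {d : ℕ} : Function.Injective (zv (d := d)) := by
  intro m n h
  funext i
  have := congrArg (fun v => v i) h
  simpa using this

/-- index of the half-open unit cell that contains a point -/
noncomputable def cel {d : ℕ} (x : EuclideanSpace ℝ (Fin d)) : Fin d → ℤ := fun i => ⌈x i⌉

theorem cel_add {d : ℕ} (x : EuclideanSpace ℝ (Fin d)) (m : Fin d → ℤ) :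
    cel (x + zv m) = cel x + m := by
  funext i
  simp [cel, Int.ceil_add_intCast]

theorem cel_sub {d : ℕ} (x : EuclideanSpace ℝ (Fin d)) (m : Fin d → ℤ) :
    cel (x - zv m) = cel x - m := by
  funext i
  simp [cel, Int.ceil_sub_intCast]

theorem measurable_cel {d : ℕ} : Measurable (cel (d := d)) := by
  apply measurable_pi_lambda
  intro i
  exact Int.measurable_ceil.comp (by fun_prop)

/-- the unit cells -/
def cell {d : ℕ} (m : Fin d → ℤ) : Set (EuclideanSpace ℝ (Fin d)) := {x | cel x = m}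

theorem mem_cell {d : ℕ} {m : Fin d → ℤ} {x : EuclideanSpace ℝ (Fin d)} :
    x ∈ cell m ↔ cel x = m := Iff.rfl

theorem measurableSet_cell {d : ℕ} (m : Fin d → ℤ) : MeasurableSet (cell m) :=
  measurable_cel (measurableSet_singleton m)

theorem cell_disjoint {d : ℕ} {m n : Fin d → ℤ} (h : m ≠ n) : Disjoint (cell m) (cell n) := by
  rw [Set.disjoint_left]
  intro x hx hy
  exact h (hx.symm.trans hy)

theorem preimage_cell {d : ℕ} (m n : Fin d → ℤ) :
    (fun x : EuclideanSpace ℝ (Fin d) => x + zv n) ⁻¹' (cell (m + n)) = cell m := by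
  ext x
  simp [cell, cel_add]

theorem mp_add {d : ℕ} (v : EuclideanSpace ℝ (Fin d)) :
    MeasurePreserving (fun x : EuclideanSpace ℝ (Fin d) => x + v) volume volume :=
  measurePreserving_add_right volume v

theorem me_add {d : ℕ} (v : EuclideanSpace ℝ (Fin d)) :
    MeasurableEmbedding (fun x : EuclideanSpace ℝ (Fin d) => x + v) :=
  measurableEmbedding_addRight v

theorem setIntegral_cell {d : ℕ} {E : Type*} [NormedAddCommGroup E] [NormedSpace ℝ E]
    (h : EuclideanSpace ℝ (Fin d) → E) (m : Fin d → ℤ) :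
    ∫ x in cell m, h x = ∫ x in cell 0, h (x + zv m) := by
  have := (mp_add (zv m)).setIntegral_preimage_emb (me_add (zv m)) h (cell m)
  rw [← this]
  congr 2
  have h2 := preimage_cell 0 m
  rw [zero_add] at h2
  rw [h2]

theorem integral_cells {d : ℕ} {E : Type*} [NormedAddCommGroup E] [NormedSpace ℝ E]
    (h : EuclideanSpace ℝ (Fin d) → E) (F : Finset (Fin d → ℤ))
    (hF : ∀ x, cel x ∉ F → h x = 0) (hi : Integrable h) :
    ∫ x, h x = ∑ m ∈ F, ∫ x in cell 0, h (x + zv m) := by
  have h1 : ∫ x in (⋃ m ∈ F, cell m), h x = ∫ x, h x := by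
    apply setIntegral_eq_integral_of_forall_compl_eq_zero
    intro x hx
    apply hF
    intro hc
    apply hx
    simp only [mem_iUnion]
    exact ⟨cel x, hc, rfl⟩
  rw [← h1, integral_biUnion_finset F (fun m _ => measurableSet_cell m)]
  · apply Finset.sum_congr rfl
    intro m _
    exact setIntegral_cell h m
  · intro m _ n _ hmn
    exact cell_disjoint hmn
  · intro m _
    exact hi.integrableOn

/-- the half-open box -/
def box (d : ℕ) : Set (Fin d → ℝ) := {x | ∀ i, x i ∈ Ioc ((-1 : ℝ)) (-1 + 1)}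

theorem measurableSet_box (d : ℕ) : MeasurableSet (box d) := by
  have : box d = Set.pi Set.univ (fun _ => Ioc (-1 : ℝ) (-1 + 1)) := by
    ext x; simp [box]
  rw [this]
  exact MeasurableSet.univ_pi (fun _ => measurableSet_Ioc)

theorem cell_zero_eq {d : ℕ} :
    (WithLp.ofLp : EuclideanSpace ℝ (Fin d) → (Fin d → ℝ)) ⁻¹' (box d) = cell 0 := by
  ext x
  simp only [mem_preimage, box, mem_ofPred_eq, mem_cell]
  constructor
  · intro h
    funext i
    have := h i
    simp only [cel, Pi.zero_apply]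
    rw [Int.ceil_eq_iff]
    constructor
    · have := this.1
      push_cast
      linarith
    · have := this.2
      push_cast
      linarith
  · intro h i
    have h1 := congrFun h i
    simp only [cel, Pi.zero_apply] at h1
    rw [Int.ceil_eq_iff] at h1
    push_cast at h1
    constructor
    · linarith [h1.1]
    · linarith [h1.2]

theorem mp_ofLp (d : ℕ) : MeasurePreserving
    (WithLp.ofLp : EuclideanSpace ℝ (Fin d) → (Fin d → ℝ)) volume volume :=
  EuclideanSpace.volume_preserving_symm_measurableEquiv_toLp (Fin d)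

theorem me_ofLp (d : ℕ) : MeasurableEmbedding
    (WithLp.ofLp : EuclideanSpace ℝ (Fin d) → (Fin d → ℝ)) :=
  (MeasurableEquiv.toLp 2 (Fin d → ℝ)).symm.measurableEmbedding

theorem volume_cell {d : ℕ} (m : Fin d → ℤ) : volume (cell m) = 1 := by
  have h1 : volume (cell m) = volume (cell (0 : Fin d → ℤ)) := by
    have h2 := preimage_cell 0 m
    rw [zero_add] at h2
    rw [← h2]
    exact ((mp_add (zv m)).measure_preimage (measurableSet_cell m).nullMeasurableSet).symm
  rw [h1, ← cell_zero_eq, (mp_ofLp d).measure_preimage (measurableSet_box d).nullMeasurableSet]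
  have : box d = Set.pi Set.univ (fun _ => Ioc (-1 : ℝ) (-1 + 1)) := by
    ext x; simp [box]
  rw [this, volume_pi_pi]
  simp

/-- exponential with frequency `θ` -/
noncomputable def ex {d : ℕ} (θ x : EuclideanSpace ℝ (Fin d)) : ℂ :=
  Complex.exp (2 * Real.pi * Complex.I * ((inner ℝ θ x : ℝ) : ℂ))

theorem ex_add_right {d : ℕ} (θ x y : EuclideanSpace ℝ (Fin d)) :
    ex θ (x + y) = ex θ x * ex θ y := by
  unfold ex
  rw [← Complex.exp_add, inner_add_right]
  congr 1
  push_cast
  ring

theorem ex_add_left {d : ℕ} (θ η x : EuclideanSpace ℝ (Fin d)) :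
    ex (θ + η) x = ex θ x * ex η x := by
  unfold ex
  rw [← Complex.exp_add, inner_add_left]
  congr 1
  push_cast
  ring

theorem norm_ex {d : ℕ} (θ x : EuclideanSpace ℝ (Fin d)) : ‖ex θ x‖ = 1 := by
  unfold ex
  rw [Complex.norm_exp]
  simp

theorem conj_ex {d : ℕ} (θ x : EuclideanSpace ℝ (Fin d)) : conj (ex θ x) = ex (-θ) x := by
  unfold ex
  rw [← Complex.exp_conj, inner_neg_left]
  congr 1
  have h2 : (starRingEnd ℂ) 2 = 2 := Complex.conj_ofNat 2
  simp [h2]

theorem ex_mul_conj {d : ℕ} (θ x : EuclideanSpace ℝ (Fin d)) : ex θ x * conj (ex θ x) = 1 := by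
  rw [Complex.mul_conj, Complex.normSq_eq_norm_sq, norm_ex]
  simp

theorem ex_ne_zero {d : ℕ} (θ x : EuclideanSpace ℝ (Fin d)) : ex θ x ≠ 0 := by
  unfold ex
  exact Complex.exp_ne_zero _

theorem continuous_ex {d : ℕ} (θ : EuclideanSpace ℝ (Fin d)) : Continuous (ex θ) := by
  unfold ex
  fun_prop

theorem ex_zv_zv {d : ℕ} (m n : Fin d → ℤ) : ex (zv m) (zv n) = 1 := by
  unfold ex
  rw [Complex.exp_eq_one_iff]
  refine ⟨∑ i, m i * n i, ?_⟩
  have : (inner ℝ (zv m) (zv n) : ℝ) = ((∑ i, m i * n i : ℤ) : ℝ) := by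
    rw [PiLp.inner_apply]
    push_cast
    apply Finset.sum_congr rfl
    intro i _
    simp [mul_comm]
  rw [this]
  push_cast
  ring

theorem ex_zv_eq {d : ℕ} (n : Fin d → ℤ) (x : Fin d → ℝ) :
    UnitAddTorus.mFourier n (fun i => (x i : UnitAddCircle)) = ex (zv n) (WithLp.toLp 2 x) := by
  unfold UnitAddTorus.mFourier ex
  simp only [ContinuousMap.coe_mk]
  have h1 : ∀ i, (fourier (n i) ((x i : ℝ) : UnitAddCircle) : ℂ) =
      Complex.exp (2 * Real.pi * Complex.I * (((n i : ℝ) * x i : ℝ) : ℂ)) := by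
    intro i
    rw [fourier_coe_apply]
    congr 1
    push_cast
    ring
  simp_rw [h1]
  rw [← Complex.exp_sum, ← Finset.mul_sum]
  congr 2
  rw [PiLp.inner_apply]
  push_cast
  apply Finset.sum_congr rfl
  intro i _
  simp [mul_comm]

end Pool.Agent.H414R3
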