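import Pool.Agent.H414R3.Gabor

set_option autoImplicit false
open MeasureTheory Set
open scoped ComplexConjugate ENNReal

namespace Pool.Agent.H414R3.LW

/-- the values of the window on the unit squares -/
noncomputable def hw (a b : ℤ) : ℂ :=
  if (a = 0 ∨ a = 1) ∧ (b = 0 ∨ b = 1) then (if a = 1 ∧ b = 1 then -1 / 2 else 1 / 2) else 0

noncomputable def g0 (m : Fin 2 → ℤ) : ℂ := hw (m 0) (m 1)

def F : Finset (Fin 2 → ℤ) := {![0, 0], ![1, 0], ![0, 1], ![1, 1]}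

theorem sumF (φ : (Fin 2 → ℤ) → ℂ) :
    ∑ k ∈ F, φ k = φ ![0, 0] + φ ![1, 0] + φ ![0, 1] + φ ![1, 1] := by
  unfold F
  rw [Finset.sum_insert (by decide), Finset.sum_insert (by decide), Finset.sum_insert (by decide),
    Finset.sum_singleton]
  ring

theorem eta2 (m : Fin 2 → ℤ) : m = ![m 0, m 1] := by
  funext i
  fin_cases i <;> rfl

theorem hg0 (m : Fin 2 → ℤ) (hm : m ∉ F) : g0 m = 0 := by
  unfold g0 hw
  rw [if_neg]
  rintro ⟨h1, h2⟩
  apply hm
  rw [eta2 m]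
  rcases h1 with h1 | h1 <;> rcases h2 with h2 | h2 <;> rw [h1, h2] <;> decide

theorem hw_conj (a b : ℤ) : conj (hw a b) = hw a b := by
  unfold hw
  split_ifs
  · simp [Complex.conj_ofNat]
  · simp [Complex.conj_ofNat]
  · simp

/-- frequencies -/
noncomputable def fr (a b : ℤ) : EuclideanSpace ℝ (Fin 2) := WithLp.toLp 2 ![(a : ℝ), (b : ℝ) / 2]

theorem inner_fr (a b : ℤ) (m : Fin 2 → ℤ) :
    (inner ℝ (fr a b) (zv m) : ℝ) = a * m 0 + b / 2 * m 1 := by
  rw [PiLp.inner_apply, Fin.sum_univ_two]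
  simp [fr, mul_comm]

theorem ex_fr_even (a c : ℤ) (m : Fin 2 → ℤ) : ex (fr a (2 * c)) (zv m) = 1 := by
  unfold ex
  rw [inner_fr, Complex.exp_eq_one_iff]
  refine ⟨a * m 0 + c * m 1, ?_⟩
  push_cast
  ring

theorem ex_fr_odd (a c : ℤ) (m : Fin 2 → ℤ) : ex (fr a (2 * c + 1)) (zv m) = (-1) ^ (m 1) := by
  unfold ex
  rw [inner_fr]
  have h1 : (2 * Real.pi * Complex.I * (((a : ℝ) * (m 0 : ℝ) + ((2 * c + 1 : ℤ) : ℝ) / 2 * (m 1 : ℝ)
      : ℝ) : ℂ)) = ((a * m 0 + c * m 1 : ℤ) : ℂ) * (2 * Real.pi * Complex.I) +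
      ((m 1 : ℤ) : ℂ) * (Real.pi * Complex.I) := by
    push_cast
    ring
  rw [h1, Complex.exp_add, Complex.exp_int_mul_two_pi_mul_I, one_mul, Complex.exp_int_mul,
    Complex.exp_pi_mul_I]

theorem fr_sub (a b a' b' : ℤ) : fr a b - fr a' b' = fr (a - a') (b - b') := by
  ext i
  fin_cases i
  · simp [fr]
  · simp [fr]; ring

theorem fr_even (a c : ℤ) : fr a (2 * c) = zv ![a, c] := by
  ext i
  fin_cases i
  · simp [fr]
  · simp [fr]

theorem fr_injective {a b a' b' : ℤ} (h : fr a b = fr a' b') : a = a' ∧ b = b' := by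
  have h0 := congrArg (fun v : EuclideanSpace ℝ (Fin 2) => v 0) h
  have h1 := congrArg (fun v : EuclideanSpace ℝ (Fin 2) => v 1) h
  simp [fr] at h0 h1
  constructor
  · exact_mod_cast h0
  · exact_mod_cast h1

/-- discrete orthogonality -/
theorem disc_orth (t t' : Fin 2 → ℤ) (ht : ∃ k, t 0 = 2 * k) (ht' : ∃ k, t' 0 = 2 * k)
    (a b : ℤ) (h : t ≠ t' ∨ b % 2 = 1) :
    ∑ k ∈ F, g0 k * conj (g0 (k + t - t')) * ex (fr a b) (zv (k + t)) = 0 := by
  obtain ⟨u, hu⟩ := ht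
  obtain ⟨u', hu'⟩ := ht'
  rw [sumF]
  have hE : ex (fr a b) (zv (![1, 0] + t)) = ex (fr a b) (zv (![0, 0] + t)) ∧
      ex (fr a b) (zv (![1, 1] + t)) = ex (fr a b) (zv (![0, 1] + t)) ∧
      (b % 2 = 1 → ex (fr a b) (zv (![0, 1] + t)) = - ex (fr a b) (zv (![0, 0] + t))) := by
    rcases Int.even_or_odd' b with ⟨c, rfl | rfl⟩
    · simp only [ex_fr_even, true_and]
      intro h
      omega
    · simp only [ex_fr_odd]
      refine ⟨by simp, by simp, ?_⟩
      intro _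
      have : ((![0, 1] + t : Fin 2 → ℤ) 1) = 1 + t 1 := by simp
      rw [this]
      have : ((![0, 0] + t : Fin 2 → ℤ) 1) = t 1 := by simp
      rw [this, zpow_add₀ (by norm_num : (-1 : ℂ) ≠ 0)]
      simp
  obtain ⟨h1, h2, h3⟩ := hE
  rw [h1, h2]
  have e1 : ∀ i j : ℤ, g0 (![i, j] + t - t') = hw (i + t 0 - t' 0) (j + t 1 - t' 1) := by
    intro i j
    rfl
  have e2 : ∀ i j : ℤ, g0 ![i, j] = hw i j := by
    intro i j
    rfl
  simp only [e1, e2, hw_conj]
  have v00 : hw 0 0 = 1 / 2 := by unfold hw; simp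
  have v10 : hw 1 0 = 1 / 2 := by unfold hw; simp
  have v01 : hw 0 1 = 1 / 2 := by unfold hw; simp
  have v11 : hw 1 1 = -1 / 2 := by unfold hw; simp
  by_cases hk : u = u'
  · have hd : t 0 - t' 0 = 0 := by rw [hu, hu', hk]; ring
    have w0 : 0 + t 0 - t' 0 = 0 := by omega
    have w1 : 1 + t 0 - t' 0 = 1 := by omega
    rw [w0, w1]
    by_cases hl : t 1 = t' 1
    · have z0 : 0 + t 1 - t' 1 = 0 := by omega
      have z1 : 1 + t 1 - t' 1 = 1 := by omega
      rw [z0, z1, v00, v10, v01, v11]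
      have hb : b % 2 = 1 := by
        rcases h with h | h
        · exfalso
          apply h
          rw [eta2 t, eta2 t', hl, hu, hu', hk]
        · exact h
      rw [h3 hb]
      ring
    · by_cases hl1 : t 1 - t' 1 = 1
      · have z0 : 0 + t 1 - t' 1 = 1 := by omega
        have z1 : 1 + t 1 - t' 1 = 2 := by omega
        have v2 : ∀ a, hw a 2 = 0 := by intro a; unfold hw; simp
        rw [z0, z1, v00, v10, v01, v11, v2, v2]
        ring
      · by_cases hl2 : t 1 - t' 1 = -1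
        · have z0 : 0 + t 1 - t' 1 = -1 := by omega
          have z1 : 1 + t 1 - t' 1 = 0 := by omega
          have v2 : ∀ a, hw a (-1) = 0 := by intro a; unfold hw; simp
          rw [z0, z1, v00, v10, v01, v11, v2, v2]
          ring
        · have v2 : ∀ a, hw a (0 + t 1 - t' 1) = 0 := by
            intro a; unfold hw; rw [if_neg]; rintro ⟨_, h | h⟩ <;> omega
          have v3 : ∀ a, hw a (1 + t 1 - t' 1) = 0 := by
            intro a; unfold hw; rw [if_neg]; rintro ⟨_, h | h⟩ <;> omega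
          rw [v2, v2, v3, v3]
          ring
  · have v2 : ∀ a, hw (0 + t 0 - t' 0) a = 0 := by
      intro a; unfold hw; rw [if_neg]; rintro ⟨h | h, _⟩ <;> omega
    have v3 : ∀ a, hw (1 + t 0 - t' 0) a = 0 := by
      intro a; unfold hw; rw [if_neg]; rintro ⟨h | h, _⟩ <;> omega
    rw [v2, v2, v3, v3]
    ring

/-- discrete index set -/
def P : Set ((Fin 2 → ℤ) × EuclideanSpace ℝ (Fin 2)) :=
  {p | ∃ k l j : ℤ, p = (![2 * k, l], fr 0 j)}

theorem hP : P.Countable := by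
  have : P = Set.range (fun q : ℤ × ℤ × ℤ =>
      ((![2 * q.1, q.2.1], fr 0 q.2.2) : (Fin 2 → ℤ) × EuclideanSpace ℝ (Fin 2))) := by
    ext p
    constructor
    · rintro ⟨k, l, j, rfl⟩
      exact ⟨(k, l, j), rfl⟩
    · rintro ⟨⟨k, l, j⟩, rfl⟩
      exact ⟨k, l, j, rfl⟩
  rw [this]
  exact Set.countable_range _

theorem disc_complete (G : (Fin 2 → ℤ) → ℂ)
    (h : ∀ p ∈ P, ∑ k ∈ F, G (k + p.1) * conj (g0 k * ex p.2 (zv (k + p.1))) = 0) :
    ∀ m, G m = 0 := by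
  have v00 : g0 ![0, 0] = 1 / 2 := by unfold g0 hw; simp
  have v10 : g0 ![1, 0] = 1 / 2 := by unfold g0 hw; simp
  have v01 : g0 ![0, 1] = 1 / 2 := by unfold g0 hw; simp
  have v11 : g0 ![1, 1] = -1 / 2 := by unfold g0 hw; simp
  have c2 : conj (1 / 2 : ℂ) = 1 / 2 := by simp [Complex.conj_ofNat]
  have c3 : conj (-1 / 2 : ℂ) = -1 / 2 := by simp [Complex.conj_ofNat]
  have key : ∀ k l : ℤ, G ![2 * k, l] + G ![2 * k + 1, l] = 0 ∧
      G ![2 * k, l + 1] - G ![2 * k + 1, l + 1] = 0 := by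
    intro k l
    have h0 := h (![2 * k, l], fr 0 (2 * 0)) ⟨k, l, 2 * 0, rfl⟩
    have h1 := h (![2 * k, l], fr 0 (2 * 0 + 1)) ⟨k, l, 2 * 0 + 1, rfl⟩
    rw [sumF] at h0 h1
    simp only [ex_fr_even, ex_fr_odd, v00, v10, v01, v11, map_mul, mul_one, c2, c3] at h0 h1
    have a00 : (![0, 0] + ![2 * k, l] : Fin 2 → ℤ) = ![2 * k, l] := by
      funext i; fin_cases i <;> simp
    have a10 : (![1, 0] + ![2 * k, l] : Fin 2 → ℤ) = ![2 * k + 1, l] := by
      funext i; fin_cases i <;> simp [add_comm]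
    have a01 : (![0, 1] + ![2 * k, l] : Fin 2 → ℤ) = ![2 * k, l + 1] := by
      funext i; fin_cases i <;> simp [add_comm]
    have a11 : (![1, 1] + ![2 * k, l] : Fin 2 → ℤ) = ![2 * k + 1, l + 1] := by
      funext i; fin_cases i <;> simp [add_comm]
    rw [a00, a10, a01, a11] at h0 h1
    have b1 : (![2 * k, l] : Fin 2 → ℤ) 1 = l := by simp
    have b2 : (![2 * k + 1, l] : Fin 2 → ℤ) 1 = l := by simp
    have b3 : (![2 * k, l + 1] : Fin 2 → ℤ) 1 = l + 1 := by simp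
    have b4 : (![2 * k + 1, l + 1] : Fin 2 → ℤ) 1 = l + 1 := by simp
    rw [b1, b2, b3, b4] at h1
    rw [zpow_add₀ (by norm_num : (-1 : ℂ) ≠ 0), zpow_one] at h1
    have hne : ((-1 : ℂ) ^ l) ≠ 0 := zpow_ne_zero _ (by norm_num)
    have c4 : conj ((-1 : ℂ) ^ l) = (-1 : ℂ) ^ l := by
      rw [map_zpow₀]; simp
    simp only [map_mul, c4, map_neg, map_one] at h1
    have h2 : (G ![2 * k, l] + G ![2 * k + 1, l]) - (G ![2 * k, l + 1] - G ![2 * k + 1, l + 1]) = 0 := by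
      apply mul_left_cancel₀ hne
      linear_combination 2 * h1
    constructor
    · linear_combination h0 + h2 / 2
    · linear_combination h0 - h2 / 2
  intro m
  rw [eta2 m]
  have k1 := (key (m 0 / 2) (m 1)).1
  have k2 := (key (m 0 / 2) (m 1 - 1)).2
  rw [sub_add_cancel] at k2
  rcases Int.emod_two_eq_zero_or_one (m 0) with h0 | h0
  · have h3 : m 0 = 2 * (m 0 / 2) := by omega
    have h4 : (![m 0, m 1] : Fin 2 → ℤ) = ![2 * (m 0 / 2), m 1] := by
      rw [← h3]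
    rw [h4]
    linear_combination k1 / 2 + k2 / 2
  · have h3 : m 0 = 2 * (m 0 / 2) + 1 := by omega
    have h4 : (![m 0, m 1] : Fin 2 → ℤ) = ![2 * (m 0 / 2) + 1, m 1] := by
      rw [← h3]
    rw [h4]
    linear_combination k1 / 2 - k2 / 2

end Pool.Agent.H414R3.LW
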