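import Pool.Agent.H414R3.NSDisc

set_option autoImplicit false
open MeasureTheory Set
open scoped ComplexConjugate ENNReal

namespace Pool.Agent.H414R3.NS

/-- frequencies -/
noncomputable def φ (k : ℕ) (u r q : ℤ) : EuclideanSpace ℝ (Fin 2) :=
  WithLp.toLp 2 ![(r : ℝ) / (6 * k), (k * u : ℝ) / 8 + (q : ℝ) / k]

/-- index set -/
def P (k : ℕ) : Set ((Fin 2 → ℤ) × EuclideanSpace ℝ (Fin 2)) :=
  {p | ∃ u v r q : ℤ, p = (![k * u, 6 * k * v], -φ k u r q)}

theorem hP (k : ℕ) : (P k).Countable := by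
  have : P k = Set.range (fun q : ℤ × ℤ × ℤ × ℤ =>
      ((![k * q.1, 6 * k * q.2.1], -φ k q.1 q.2.2.1 q.2.2.2) :
        (Fin 2 → ℤ) × EuclideanSpace ℝ (Fin 2))) := by
    ext p
    constructor
    · rintro ⟨u, v, r, q, rfl⟩
      exact ⟨(u, v, r, q), rfl⟩
    · rintro ⟨⟨u, v, r, q⟩, rfl⟩
      exact ⟨u, v, r, q, rfl⟩
  rw [this]
  exact Set.countable_range _

theorem ex_φ (k : ℕ) (hk : 0 < k) (u v r q : ℤ) (m : Fin 2 → ℤ) :
    ex (φ k u r q) (zv (m + ![k * u, 6 * k * v])) =
      e1 ((r * u : ℝ) / 6) * (e1 ((k * u : ℝ) * (m 1 + 6 * k * v) / 8) *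
        e1 (r * (m 0 / ((6 * k : ℕ) : ℝ))) * e1 (q * (m 1 / (k : ℝ)))) := by
  have hk' : (k : ℝ) ≠ 0 := by positivity
  rw [ex_zv]
  have h1 : e1 ((6 * q * v : ℤ) : ℝ) = 1 := e1_int _
  rw [← mul_one (e1 ((r * u : ℝ) / 6)), ← h1]
  rw [← e1_add, ← e1_add, ← e1_add, ← e1_add]
  congr 1
  simp [φ]
  field_simp
  ring

theorem disc_complete {k : ℕ} (hk : k % 24 = 1) (G : (Fin 2 → ℤ) → ℂ)
    (h : ∀ p ∈ P k, ∑ m ∈ Ek k, G (m + p.1) * conj (g k m * ex p.2 (zv (m + p.1))) = 0) :
    ∀ m, G m = 0 := by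
  have hkpos : 0 < k := k_pos hk
  have step1 : ∀ u v x y : ℤ, ∑ m ∈ Ek k with ((6 * k : ℕ) : ℤ) ∣ m 0 - x ∧ (k : ℤ) ∣ m 1 - y,
      G (m + ![k * u, 6 * k * v]) * e1 ((k * u : ℝ) * (m 1 + 6 * k * v) / 8) = 0 := by
    intro u v x y
    apply extract (Ek k) _ (6 * k) k (by omega) hkpos
    intro r q
    have h1 := h (![k * u, 6 * k * v], -φ k u r q) ⟨u, v, r, q, rfl⟩
    have h2 : ∑ m ∈ Ek k, G (m + ![k * u, 6 * k * v]) *
        conj (g k m * ex (-φ k u r q) (zv (m + ![k * u, 6 * k * v]))) =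
        e1 ((r * u : ℝ) / 6) * ∑ m ∈ Ek k, G (m + ![k * u, 6 * k * v]) *
          e1 ((k * u : ℝ) * (m 1 + 6 * k * v) / 8) *
          e1 (r * (m 0 / ((6 * k : ℕ) : ℝ))) * e1 (q * (m 1 / (k : ℝ))) := by
      rw [Finset.mul_sum]
      apply Finset.sum_congr rfl
      intro m hm
      have hgm : g k m = 1 := if_pos hm
      rw [hgm, one_mul, conj_ex, neg_neg, ex_φ k hkpos]
      ring
    simp only at h1
    rw [h2] at h1
    rcases mul_eq_zero.1 h1 with h3 | h3
    · exact absurd h3 (e1_ne_zero _)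
    · exact h3
  intro M
  obtain ⟨β, c, v, hc0, hc1, hY⟩ := surj2 hk (M 1)
  obtain ⟨j, j', i, i', hii, hβ, hbb, hmod⟩ := bb_cover β
  -- the partner in the same residue class
  obtain ⟨c', z, hc0', hc1', hz⟩ := surj1 hk (bb j i + 24 * c) (bb j i')
  -- equation for one column
  have eqn : ∀ (l : Fin 6), bb l = bb j → ∀ a u : ℤ, 0 ≤ a → a < k → M 0 = l.val + 24 * a + k * u →
      G M * e1 ((k * u : ℝ) * (bb j i + 24 * c + 6 * k * v) / 8) +
      G ![M 0, bb j i' + 24 * c' + 6 * k * v] *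
        e1 ((k * u : ℝ) * (bb j i' + 24 * c' + 6 * k * v) / 8) = 0 := by
    intro l hl a u ha0 ha1 hX
    have h1 := step1 u v (l.val + 24 * a) (bb j i + 24 * c)
    have h2 : (Ek k).filter (fun m => ((6 * k : ℕ) : ℤ) ∣ m 0 - (l.val + 24 * a) ∧
        (k : ℤ) ∣ m 1 - (bb j i + 24 * c)) =
        {![(l.val : ℤ) + 24 * a, bb j i + 24 * c], ![(l.val : ℤ) + 24 * a, bb j i' + 24 * c']} := by
      ext m
      rw [Finset.mem_filter, mem_Ek, Finset.mem_insert, Finset.mem_singleton]
      constructor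
      · rintro ⟨⟨l₁, i₁, a₁, c₁, p1, p2, p3, p4, p5, p6⟩, d1, d2⟩
        rw [p5] at d1
        have hl1 := l₁.isLt
        have hl2 := l.isLt
        obtain ⟨q1, q2⟩ := uniq6 hk (by positivity) (by exact_mod_cast hl1) (by positivity)
          (by exact_mod_cast hl2) p1 p2 ha0 ha1 d1
        have q3 : l₁ = l := by apply Fin.ext; exact_mod_cast q1
        subst q3
        subst q2
        rw [p6, hl] at d2
        by_cases hi : i₁ = i
        · left
          subst hi
          have : c₁ = c := by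
            apply small_dvd (k := k) p3 p4 hc0 hc1
            apply dvd24 hk
            have : (24 : ℤ) * (c₁ - c) = (bb j i₁ + 24 * c₁) - (bb j i₁ + 24 * c) := by ring
            rw [this]
            exact d2
          subst this
          rw [LW.eta2 m, p5, p6, hl]
        · right
          have hi' : i₁ = i' := by
            have h1 := i₁.isLt
            have h2 := i.isLt
            have h3 := i'.isLt
            apply Fin.ext
            have h4 : i₁.val ≠ i.val := fun hh => hi (Fin.ext hh)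
            have h5 : i.val ≠ i'.val := fun hh => hii (Fin.ext hh)
            omega
          subst hi'
          have : c₁ = c' := by
            apply small_dvd (k := k) p3 p4 hc0' hc1'
            apply dvd24 hk
            have e : (24 : ℤ) * (c₁ - c') = (bb j i₁ + 24 * c₁ - (bb j i + 24 * c)) + k * z := by
              linear_combination hz
            rw [e]
            exact dvd_add d2 (dvd_mul_right _ _)
          subst this
          rw [LW.eta2 m, p5, p6, hl]
      · rintro (rfl | rfl)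
        · refine ⟨⟨l, i, a, c, ha0, ha1, hc0, hc1, by simp, by simp [hl]⟩, by simp, by simp⟩
        · refine ⟨⟨l, i', a, c', ha0, ha1, hc0', hc1', by simp, by simp [hl]⟩, by simp, ?_⟩
          refine ⟨-z, ?_⟩
          show (bb j i' + 24 * c') - (bb j i + 24 * c) = k * -z
          linear_combination (-1) * hz
    rw [h2, Finset.sum_insert, Finset.sum_singleton] at h1
    · have a1 : (![(l.val : ℤ) + 24 * a, bb j i + 24 * c] + ![k * u, 6 * k * v] : Fin 2 → ℤ) = M := by
        rw [LW.eta2 M, hX, hY, ← hβ]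
        funext x
        fin_cases x
        · simp
        · simp
      have a2 : (![(l.val : ℤ) + 24 * a, bb j i' + 24 * c'] + ![k * u, 6 * k * v] : Fin 2 → ℤ) =
          ![M 0, bb j i' + 24 * c' + 6 * k * v] := by
        rw [hX]
        funext x
        fin_cases x
        · simp
        · simp
      rw [a1, a2] at h1
      simp only [Matrix.cons_val_one] at h1
      push_cast at h1 ⊢
      exact h1
    · rw [Finset.mem_singleton]
      intro hh
      have := congrFun hh 1
      simp only [Matrix.cons_val_one] at this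
      have b1 := bb_bounds j i
      have b2 := bb_bounds j i'
      have : bb j i = bb j i' := by
        have := this
        change bb j i + 24 * c = bb j i' + 24 * c' at this
        omega
      exact hii (bb_inj _ _ _ this)
  obtain ⟨a, u, ha0, ha1, hX⟩ := surj1 hk (M 0) j.val
  obtain ⟨a', u', ha0', ha1', hX'⟩ := surj1 hk (M 0) j'.val
  have E1 := eqn j rfl a u ha0 ha1 hX
  have E2 := eqn j' hbb a' u' ha0' ha1' hX'
  have key : e1 ((k * u' : ℝ) * (bb j i' + 24 * c' + 6 * k * v) / 8) *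
      e1 ((k * u : ℝ) * (bb j i + 24 * c + 6 * k * v) / 8) =
      - (e1 ((k * u : ℝ) * (bb j i' + 24 * c' + 6 * k * v) / 8) *
        e1 ((k * u' : ℝ) * (bb j i + 24 * c + 6 * k * v) / 8)) := by
    have w1 : (k : ℤ) * u' - k * u = (j.val - j'.val) + 24 * (a - a') := by linarith
    obtain ⟨n, hn⟩ : ∃ n : ℤ, ((j.val : ℤ) - j'.val) * (bb j i' - bb j i) = 4 + 8 * n :=
      ⟨(((j.val : ℤ) - j'.val) * (bb j i' - bb j i) - 4) / 8, by omega⟩
    have w2 : ((k : ℤ) * u' - k * u) * ((bb j i' + 24 * c') - (bb j i + 24 * c)) =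
        4 + 8 * (n + 3 * (j.val - j'.val) * (c' - c) + 3 * (a - a') * (bb j i' - bb j i)
          + 72 * (a - a') * (c' - c)) := by
      rw [w1]
      linear_combination hn
    have w3 : e1 (((((k : ℤ) * u' - k * u) * ((bb j i' + 24 * c') - (bb j i + 24 * c)) : ℤ) : ℝ) / 8)
        = -1 := by
      apply e1_eighth
      rw [w2]
      omega
    rw [← e1_add, ← e1_add, ← neg_one_mul, ← w3, ← e1_add]
    congr 1
    push_cast
    ring
  have hne := mul_ne_zero
    (e1_ne_zero ((k * u : ℝ) * (bb j i' + 24 * c' + 6 * k * v) / 8))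
    (e1_ne_zero ((k * u' : ℝ) * (bb j i + 24 * c + 6 * k * v) / 8))
  have fin : G M * (e1 ((k * u : ℝ) * (bb j i' + 24 * c' + 6 * k * v) / 8) *
      e1 ((k * u' : ℝ) * (bb j i + 24 * c + 6 * k * v) / 8)) = 0 := by
    linear_combination (-1 / 2) * (e1 ((k * u' : ℝ) * (bb j i' + 24 * c' + 6 * k * v) / 8) * E1 -
      e1 ((k * u : ℝ) * (bb j i' + 24 * c' + 6 * k * v) / 8) * E2 - G M * key)
  rcases mul_eq_zero.1 fin with h3 | h3
  · exact h3
  · exact absurd h3 hne

end Pool.Agent.H414R3.NS
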