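import Pool.Agent.H414R3.Char
import Pool.Agent.H414R3.LiuWang

set_option autoImplicit false
open MeasureTheory Set
open scoped ComplexConjugate ENNReal

namespace Pool.Agent.H414R3.NS

/-- the six columns -/
def bb : Fin 6 → Fin 2 → ℤ := ![![0, 2], ![3, 4], ![0, 2], ![1, 5], ![1, 5], ![3, 4]]

theorem bb_bounds : ∀ j i, 0 ≤ bb j i ∧ bb j i < 6 := by decide

theorem bb_inj : ∀ j i i', bb j i = bb j i' → i = i' := by decide

theorem bb_cover : ∀ β : Fin 6, ∃ j j' : Fin 6, ∃ i i' : Fin 2, i ≠ i' ∧ bb j i = (β.val : ℤ) ∧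
    bb j' = bb j ∧ (((j.val : ℤ) - (j'.val : ℤ)) * (bb j i' - bb j i) - 4) % 8 = 0 := by decide

theorem bb_match : ∀ j j' : Fin 6, ∀ i i' : Fin 2, j ≠ j' → bb j' i' = bb j i →
    bb j' = bb j ∧ (((j.val : ℤ) - (j'.val : ℤ)) * (bb j 1 - bb j 0) - 4) % 8 = 0 := by decide

def pt (k : ℕ) (q : Fin 6 × Fin k × Fin 2 × Fin k) : Fin 2 → ℤ :=
  ![(q.1.val : ℤ) + 24 * (q.2.1.val : ℤ), bb q.1 q.2.2.1 + 24 * (q.2.2.2.val : ℤ)]

theorem pt_injective (k : ℕ) : Function.Injective (pt k) := by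
  rintro ⟨j, a, i, c⟩ ⟨j', a', i', c'⟩ h
  have h0 := congrFun h 0
  have h1 := congrFun h 1
  simp only [pt, Matrix.cons_val_zero, Matrix.cons_val_one] at h0 h1
  have hj := j.isLt
  have hj' := j'.isLt
  have e1 : j = j' := by
    apply Fin.ext
    omega
  subst e1
  have e2 : a = a' := by
    apply Fin.ext
    omega
  subst e2
  have hb := bb_bounds j i
  have hb' := bb_bounds j i'
  have e3 : bb j i = bb j i' := by omega
  have e4 : i = i' := bb_inj _ _ _ e3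
  subst e4
  have e5 : c = c' := by
    apply Fin.ext
    omega
  subst e5
  rfl

def Ek (k : ℕ) : Finset (Fin 2 → ℤ) := Finset.univ.image (pt k)

theorem mem_Ek (k : ℕ) (m : Fin 2 → ℤ) : m ∈ Ek k ↔ ∃ (j : Fin 6) (i : Fin 2) (a c : ℤ),
    0 ≤ a ∧ a < k ∧ 0 ≤ c ∧ c < k ∧ m 0 = j.val + 24 * a ∧ m 1 = bb j i + 24 * c := by
  unfold Ek
  rw [Finset.mem_image]
  constructor
  · rintro ⟨⟨j, a, i, c⟩, -, rfl⟩
    refine ⟨j, i, a.val, c.val, by positivity, by exact_mod_cast a.isLt, by positivity,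
      by exact_mod_cast c.isLt, rfl, rfl⟩
  · rintro ⟨j, i, a, c, ha, ha', hc, hc', h0, h1⟩
    refine ⟨(j, ⟨a.toNat, by omega⟩, i, ⟨c.toNat, by omega⟩), Finset.mem_univ _, ?_⟩
    rw [Pool.Agent.H414R3.NS.pt]
    funext x
    fin_cases x
    · simp only [Fin.zero_eta, Matrix.cons_val_zero]
      rw [h0, Int.toNat_of_nonneg ha]
    · simp only [Fin.mk_one, Matrix.cons_val_one]
      rw [h1, Int.toNat_of_nonneg hc]
      rfl

noncomputable def g (k : ℕ) (m : Fin 2 → ℤ) : ℂ := if m ∈ Ek k then 1 else 0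

theorem hg (k : ℕ) (m : Fin 2 → ℤ) (hm : m ∉ Ek k) : g k m = 0 := if_neg hm

section arith

variable {k : ℕ} (hk : k % 24 = 1)

include hk

theorem cop24 : IsCoprime (k : ℤ) 24 := by
  refine ⟨1, -((k / 24 : ℕ) : ℤ), ?_⟩
  omega

theorem k_pos : 0 < k := by omega

theorem dvd24 {z : ℤ} (h : (k : ℤ) ∣ 24 * z) : (k : ℤ) ∣ z :=
  (cop24 hk).dvd_of_dvd_mul_left h

theorem dvd4 {z : ℤ} (h : (k : ℤ) ∣ 4 * z) : (k : ℤ) ∣ z := by
  apply dvd24 hk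
  have : (24 : ℤ) * z = 6 * (4 * z) := by ring
  rw [this]
  exact Dvd.dvd.mul_left h 6

omit hk in
theorem small_dvd {c c' : ℤ} (h0 : 0 ≤ c) (h1 : c < k) (h0' : 0 ≤ c') (h1' : c' < k)
    (h : (k : ℤ) ∣ c - c') : c = c' := by
  have : c - c' = 0 := by
    apply Int.eq_zero_of_abs_lt_dvd h
    rw [abs_lt]
    constructor <;> linarith
  linarith

theorem uniq6 {β β' c c' : ℤ} (hβ : 0 ≤ β) (hβ1 : β < 6) (hβ' : 0 ≤ β') (hβ1' : β' < 6)
    (h0 : 0 ≤ c) (h1 : c < k) (h0' : 0 ≤ c') (h1' : c' < k)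
    (h : ((6 * k : ℕ) : ℤ) ∣ (β + 24 * c) - (β' + 24 * c')) : β = β' ∧ c = c' := by
  obtain ⟨z, hz⟩ := h
  have hz' : (β + 24 * c) - (β' + 24 * c') = 6 * (k * z) := by
    rw [hz]; push_cast; ring
  have e1 : β = β' := by omega
  subst e1
  refine ⟨rfl, small_dvd h0 h1 h0' h1' ?_⟩
  apply dvd4 hk
  exact ⟨z, by linarith⟩

theorem surj1 (X j : ℤ) : ∃ a u : ℤ, 0 ≤ a ∧ a < k ∧ X = j + 24 * a + k * u := by
  have hkpos : (0 : ℤ) < k := by exact_mod_cast k_pos hk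
  obtain ⟨K, hK⟩ : ∃ K : ℤ, (k : ℤ) = 24 * K + 1 := ⟨(k / 24 : ℕ), by omega⟩
  refine ⟨(-K * (X - j)) % k, (X - j) + 24 * ((-K * (X - j)) / k), Int.emod_nonneg _ hkpos.ne',
    Int.emod_lt_of_pos _ hkpos, ?_⟩
  have h1 := Int.emod_add_mul_ediv (-K * (X - j)) k
  linear_combination (-24) * h1 - (X - j) * hK

theorem surj2 (Y : ℤ) : ∃ (β : Fin 6) (c v : ℤ), 0 ≤ c ∧ c < k ∧
    Y = (β.val : ℤ) + 24 * c + 6 * k * v := by
  have hkpos : (0 : ℤ) < k := by exact_mod_cast k_pos hk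
  obtain ⟨K, hK⟩ : ∃ K : ℤ, (k : ℤ) = 24 * K + 1 := ⟨(k / 24 : ℕ), by omega⟩
  have hb : (Y % 6).toNat < 6 := by omega
  refine ⟨⟨(Y % 6).toNat, hb⟩, (-6 * K * (Y / 6)) % k, (Y / 6) + 4 * ((-6 * K * (Y / 6)) / k),
    Int.emod_nonneg _ hkpos.ne', Int.emod_lt_of_pos _ hkpos, ?_⟩
  have h0 : (((Y % 6).toNat : ℕ) : ℤ) = Y % 6 := Int.toNat_of_nonneg (by omega)
  have h1 := Int.emod_add_mul_ediv (-6 * K * (Y / 6)) k
  have h2 := Int.emod_add_mul_ediv Y 6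
  simp only
  rw [h0]
  linear_combination (-24) * h1 - h2 - 6 * (Y / 6) * hK

end arith

end Pool.Agent.H414R3.NS
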