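import Pool.Agent.H414R3.NSComp

set_option autoImplicit false
open MeasureTheory Set
open scoped ComplexConjugate ENNReal

namespace Pool.Agent.H414R3.NS

theorem sum_Ek (k : ℕ) (f : (Fin 2 → ℤ) → ℂ) :
    ∑ m ∈ Ek k, f m = ∑ j : Fin 6, ∑ a : Fin k, ∑ i : Fin 2, ∑ c : Fin k, f (pt k (j, a, i, c)) := by
  unfold Ek
  rw [Finset.sum_image (fun a _ b _ h => pt_injective k h), Fintype.sum_prod_type]
  apply Finset.sum_congr rfl
  intro j _
  rw [Fintype.sum_prod_type]
  apply Finset.sum_congr rfl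
  intro a _
  rw [Fintype.sum_prod_type]

theorem sum_c {k : ℕ} (hk : k % 24 = 1) (Q b : ℤ) :
    ∑ c : Fin k, e1 ((Q : ℝ) * (((b : ℝ) + 24 * (c.val : ℝ)) / k)) =
      if (k : ℤ) ∣ Q then (k : ℂ) else 0 := by
  have hkpos : 0 < k := k_pos hk
  have hk' : (k : ℝ) ≠ 0 := by positivity
  have h1 : ∀ c : Fin k, e1 ((Q : ℝ) * (((b : ℝ) + 24 * (c.val : ℝ)) / k)) =
      e1 ((Q : ℝ) * b / k) * e1 (((c.val : ℕ) : ℝ) * (((24 * Q : ℤ) : ℝ) / k)) := by
    intro c
    rw [← e1_add]
    congr 1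
    push_cast
    ring
  simp_rw [h1]
  rw [← Finset.mul_sum, ← Finset.sum_range (fun c => e1 ((c : ℝ) * (((24 * Q : ℤ) : ℝ) / k))),
    char_sum k hkpos]
  by_cases hQ : (k : ℤ) ∣ Q
  · rw [if_pos hQ, if_pos (Dvd.dvd.mul_left hQ 24)]
    obtain ⟨w, rfl⟩ := hQ
    have : (((k : ℤ) * w : ℤ) : ℝ) * b / k = ((w * b : ℤ) : ℝ) := by
      push_cast
      field_simp
    rw [this, e1_int, one_mul]
  · rw [if_neg hQ, if_neg (fun h => hQ (dvd24 hk h)), mul_zero]

theorem sum_ja {k : ℕ} (hk : k % 24 = 1) (R : ℤ) (hR : ¬ ((6 * k : ℕ) : ℤ) ∣ R) :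
    ∑ j : Fin 6, ∑ a : Fin k,
      e1 ((R : ℝ) * (((j.val : ℝ) + 24 * (a.val : ℝ)) / ((6 * k : ℕ) : ℝ))) = 0 := by
  have hkpos : 0 < k := k_pos hk
  have hk' : (k : ℝ) ≠ 0 := by positivity
  have h1 : ∀ (j : Fin 6) (a : Fin k),
      e1 ((R : ℝ) * (((j.val : ℝ) + 24 * (a.val : ℝ)) / ((6 * k : ℕ) : ℝ))) =
      e1 ((R : ℝ) * j.val / (6 * k)) * e1 (((a.val : ℕ) : ℝ) * (((4 * R : ℤ) : ℝ) / k)) := by
    intro j a
    rw [← e1_add]
    congr 1
    push_cast
    field_simp
    ring
  simp_rw [h1]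
  simp_rw [← Finset.mul_sum]
  have h2 : ∑ a : Fin k, e1 (((a.val : ℕ) : ℝ) * (((4 * R : ℤ) : ℝ) / k)) =
      if (k : ℤ) ∣ 4 * R then (k : ℂ) else 0 := by
    rw [← Finset.sum_range (fun c => e1 ((c : ℝ) * (((4 * R : ℤ) : ℝ) / k))), char_sum k hkpos]
  rw [h2]
  by_cases hkR : (k : ℤ) ∣ 4 * R
  · obtain ⟨w, rfl⟩ := dvd4 hk hkR
    rw [← Finset.sum_mul]
    have h3 : ∑ j : Fin 6, e1 ((((k : ℤ) * w : ℤ) : ℝ) * j.val / (6 * k)) =
        ∑ j ∈ Finset.range 6, e1 ((j : ℝ) * ((w : ℝ) / (6 : ℕ))) := by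
      rw [Finset.sum_range]
      apply Finset.sum_congr rfl
      intro j _
      congr 1
      push_cast
      field_simp
    rw [h3, char_sum 6 (by norm_num), if_neg, zero_mul]
    intro h
    apply hR
    obtain ⟨s, hs⟩ := h
    refine ⟨s, ?_⟩
    rw [hs]
    push_cast
    ring
  · rw [if_neg hkR]
    simp

theorem disc_orth {k : ℕ} (hk : k % 24 = 1) (u v r q u' v' r' q' : ℤ)
    (hne : ¬ (u = u' ∧ v = v' ∧ (k : ℤ) ∣ q' - q ∧ ((6 * k : ℕ) : ℤ) ∣ r' - r)) :
    ∑ m ∈ Ek k, g k m * conj (g k (m + ![k * u, 6 * k * v] - ![k * u', 6 * k * v'])) *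
      ex (-φ k u r q - -φ k u' r' q') (zv (m + ![k * u, 6 * k * v])) = 0 := by
  have hkpos : 0 < k := k_pos hk
  have hk' : (k : ℝ) ≠ 0 := by positivity
  have hexp : ∀ (j : Fin 6) (a : Fin k) (i : Fin 2) (c : Fin k),
      ex (-φ k u r q - -φ k u' r' q') (zv (pt k (j, a, i, c) + ![k * u, 6 * k * v])) =
      e1 (((r' - r) * u : ℝ) / 6 + (k * (u' - u) * (6 * k * v) : ℝ) / 8) *
        e1 (((r' - r : ℤ) : ℝ) * (((j.val : ℝ) + 24 * (a.val : ℝ)) / ((6 * k : ℕ) : ℝ))) *
        (e1 ((k * (u' - u) * bb j i : ℝ) / 8) *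
        e1 (((q' - q : ℤ) : ℝ) * (((bb j i : ℝ) + 24 * (c.val : ℝ)) / k))) := by
    intro j a i c
    rw [ex_zv]
    have h1 : e1 ((6 * (q' - q) * v + 3 * k * (u' - u) * c.val : ℤ) : ℝ) = 1 := e1_int _
    rw [← mul_one (e1 (((r' - r) * u : ℝ) / 6 + (k * (u' - u) * (6 * k * v) : ℝ) / 8)), ← h1]
    rw [← e1_add, ← e1_add, ← e1_add, ← e1_add]
    congr 1
    simp [φ, pt]
    field_simp
    ring
  have hpt : ∀ q, g k (pt k q) = 1 := by
    intro q
    exact if_pos (Finset.mem_image_of_mem _ (Finset.mem_univ q))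
  rw [sum_Ek]
  simp_rw [hexp, hpt, one_mul]
  -- the value of the translated indicator
  by_cases hv : v = v'
  · subst hv
    have hsh : ∀ (j : Fin 6) (a : Fin k) (i : Fin 2) (c : Fin k),
        pt k (j, a, i, c) + ![k * u, 6 * k * v] - ![k * u', 6 * k * v] =
        ![(j.val : ℤ) + 24 * a.val + k * (u - u'), bb j i + 24 * c.val] := by
      intro j a i c
      funext x
      fin_cases x
      · simp [pt]; ring
      · simp [pt]
    simp_rw [hsh]
    by_cases hu : u = u'
    · subst hu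
      have hg1 : ∀ (j : Fin 6) (a : Fin k) (i : Fin 2) (c : Fin k),
          g k ![(j.val : ℤ) + 24 * a.val + k * (u - u), bb j i + 24 * c.val] = 1 := by
        intro j a i c
        have := hpt (j, a, i, c)
        rw [sub_self, mul_zero, add_zero]
        exact this
      simp_rw [hg1, map_one, one_mul]
      have h0 : ∀ (j : Fin 6) (i : Fin 2), e1 ((k * (u - u) * bb j i : ℝ) / 8) = 1 := by
        intro j i
        rw [sub_self, mul_zero, zero_mul, zero_div, e1_zero]
      simp_rw [h0, one_mul, ← Finset.mul_sum, sum_c hk]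
      by_cases hq : (k : ℤ) ∣ q' - q
      · have hr : ¬ ((6 * k : ℕ) : ℤ) ∣ r' - r := fun h => hne ⟨rfl, rfl, hq, h⟩
        have := sum_ja hk (r' - r) hr
        simp_rw [mul_assoc, ← Finset.mul_sum, ← Finset.sum_mul]
        rw [this]
        simp
      · simp [hq]
    · -- different first coordinates
      apply Finset.sum_eq_zero
      intro j _
      apply Finset.sum_eq_zero
      intro a _
      have hinner : ∑ i : Fin 2, ∑ c : Fin k,
          conj (g k ![(j.val : ℤ) + 24 * a.val + k * (u - u'), bb j i + 24 * c.val]) *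
          (e1 ((k * (u' - u) * bb j i : ℝ) / 8) *
          e1 (((q' - q : ℤ) : ℝ) * (((bb j i : ℝ) + 24 * (c.val : ℝ)) / k))) = 0 := by
        by_cases hQ : ∃ (j' : Fin 6) (i i' : Fin 2) (a' : ℤ), 0 ≤ a' ∧ a' < k ∧
            (j.val : ℤ) + 24 * a.val + k * (u - u') = j'.val + 24 * a' ∧ bb j' i' = bb j i
        · obtain ⟨j', i, i', a', ha0, ha1, hX, hb⟩ := hQ
          have hjj : j ≠ j' := by
            rintro rfl
            have h1 : (k : ℤ) * (u - u') = 24 * (a' - a.val) := by linarith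
            have h2 : (k : ℤ) ∣ a' - a.val := dvd24 hk ⟨u - u', h1.symm⟩
            have h3 := small_dvd ha0 ha1 (by positivity) (by exact_mod_cast a.isLt) h2
            rw [h3, sub_self, mul_zero] at h1
            rcases mul_eq_zero.1 h1 with h4 | h4
            · omega
            · apply hu; linarith
          obtain ⟨hbb, hmod⟩ := bb_match j j' i i' hjj hb
          have hg1 : ∀ (i : Fin 2) (c : Fin k),
              g k ![(j.val : ℤ) + 24 * a.val + k * (u - u'), bb j i + 24 * c.val] = 1 := by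
            intro i c
            apply if_pos
            rw [mem_Ek]
            exact ⟨j', i, a', c.val, ha0, ha1, by positivity, by exact_mod_cast c.isLt,
              hX, by rw [hbb]; rfl⟩
          simp_rw [hg1, map_one, one_mul, ← Finset.mul_sum, sum_c hk]
          rw [Fin.sum_univ_two]
          have key : e1 ((k * (u' - u) * bb j 1 : ℝ) / 8) =
              - e1 ((k * (u' - u) * bb j 0 : ℝ) / 8) := by
            obtain ⟨n, hn⟩ : ∃ n : ℤ, ((j.val : ℤ) - j'.val) * (bb j 1 - bb j 0) = 4 + 8 * n :=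
              ⟨(((j.val : ℤ) - j'.val) * (bb j 1 - bb j 0) - 4) / 8, by omega⟩
            have w1 : (k : ℤ) * (u' - u) = (j.val - j'.val) + 24 * (a.val - a') := by linarith
            have w2 : ((k : ℤ) * (u' - u)) * (bb j 1 - bb j 0) =
                4 + 8 * (n + 3 * (a.val - a') * (bb j 1 - bb j 0)) := by
              rw [w1]
              linear_combination hn
            have w3 : e1 (((((k : ℤ) * (u' - u)) * (bb j 1 - bb j 0) : ℤ) : ℝ) / 8) = -1 := by
              apply e1_eighth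
              rw [w2]
              omega
            rw [← neg_one_mul, ← w3, ← e1_add]
            congr 1
            push_cast
            ring
          rw [key]
          ring
        · have hg0 : ∀ (i : Fin 2) (c : Fin k),
              g k ![(j.val : ℤ) + 24 * a.val + k * (u - u'), bb j i + 24 * c.val] = 0 := by
            intro i c
            apply if_neg
            rw [mem_Ek]
            rintro ⟨j', i', a', c', p1, p2, p3, p4, p5, p6⟩
            apply hQ
            refine ⟨j', i, i', a', p1, p2, p5, ?_⟩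
            have b1 := bb_bounds j i
            have b2 := bb_bounds j' i'
            change bb j i + 24 * (c.val : ℤ) = bb j' i' + 24 * c' at p6
            omega
          simp [hg0]
      have hfac : ∑ i : Fin 2, ∑ c : Fin k,
          conj (g k ![(j.val : ℤ) + 24 * a.val + k * (u - u'), bb j i + 24 * c.val]) *
          (e1 (((r' - r) * u : ℝ) / 6 + (k * (u' - u) * (6 * k * v) : ℝ) / 8) *
          e1 (((r' - r : ℤ) : ℝ) * (((j.val : ℝ) + 24 * (a.val : ℝ)) / ((6 * k : ℕ) : ℝ))) *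
          (e1 ((k * (u' - u) * bb j i : ℝ) / 8) *
          e1 (((q' - q : ℤ) : ℝ) * (((bb j i : ℝ) + 24 * (c.val : ℝ)) / k)))) =
          (e1 (((r' - r) * u : ℝ) / 6 + (k * (u' - u) * (6 * k * v) : ℝ) / 8) *
          e1 (((r' - r : ℤ) : ℝ) * (((j.val : ℝ) + 24 * (a.val : ℝ)) / ((6 * k : ℕ) : ℝ)))) *
          ∑ i : Fin 2, ∑ c : Fin k,
          conj (g k ![(j.val : ℤ) + 24 * a.val + k * (u - u'), bb j i + 24 * c.val]) *
          (e1 ((k * (u' - u) * bb j i : ℝ) / 8) *
          e1 (((q' - q : ℤ) : ℝ) * (((bb j i : ℝ) + 24 * (c.val : ℝ)) / k))) := by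
        rw [Finset.mul_sum]
        apply Finset.sum_congr rfl
        intro i _
        rw [Finset.mul_sum]
        apply Finset.sum_congr rfl
        intro c _
        ring
      rw [hfac, hinner, mul_zero]
  · apply Finset.sum_eq_zero
    intro j _
    apply Finset.sum_eq_zero
    intro a _
    apply Finset.sum_eq_zero
    intro i _
    apply Finset.sum_eq_zero
    intro c _
    have hg0 : g k (pt k (j, a, i, c) + ![k * u, 6 * k * v] - ![k * u', 6 * k * v']) = 0 := by
      apply if_neg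
      rw [mem_Ek]
      rintro ⟨j', i', a', c', p1, p2, p3, p4, p5, p6⟩
      apply hv
      have b1 := bb_bounds j i
      have b2 := bb_bounds j' i'
      have p7 : bb j i + 24 * (c.val : ℤ) + 6 * k * v - 6 * k * v' = bb j' i' + 24 * c' := p6
      have h1 : ((6 * k : ℕ) : ℤ) ∣ (bb j i + 24 * (c.val : ℤ)) - (bb j' i' + 24 * c') := by
        refine ⟨v' - v, ?_⟩
        push_cast
        linear_combination p7
      obtain ⟨h2, h3⟩ := uniq6 hk b1.1 b1.2 b2.1 b2.2 (by positivity)
        (by exact_mod_cast c.isLt) p3 p4 h1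
      rw [h2, h3] at p7
      have h4 : 6 * (k : ℤ) * (v - v') = 0 := by linear_combination p7
      rcases mul_eq_zero.1 h4 with h5 | h5
      · omega
      · linarith
    rw [hg0]
    simp

end Pool.Agent.H414R3.NS
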