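import Pool.Agent.H414R3.NSDisc

set_option autoImplicit false
open Polynomial

namespace Pool.Agent.H414R3.NS

instance fact241 : Fact (Nat.Prime 241) := ⟨by norm_num⟩

theorem isPrimitiveRoot_e1 : IsPrimitiveRoot (e1 (1 / 24)) 24 := by
  have h := Complex.isPrimitiveRoot_exp 24 (by norm_num)
  have h2 : e1 (1 / 24) = Complex.exp (2 * Real.pi * Complex.I / (24 : ℕ)) := by
    unfold e1
    congr 1
    push_cast
    ring
  rw [h2]
  exact h

theorem prim2 : IsPrimitiveRoot (2 : ZMod 241) 24 := by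
  apply IsPrimitiveRoot.mk_of_lt
  · norm_num
  · decide
  · intro l h1 h2
    interval_cases l <;> decide

theorem root2 : (cyclotomic 24 (ZMod 241)).eval 2 = 0 := by
  have : NeZero ((24 : ℕ) : ZMod 241) := ⟨by decide⟩
  exact (isRoot_cyclotomic_iff.2 prim2)

theorem dvd241 {ι : Type*} (S : Finset ι) (n : ι → ℕ)
    (h : ∑ i ∈ S, e1 ((n i : ℝ) / 24) = 0) : ∑ i ∈ S, (2 : ZMod 241) ^ (n i) = 0 := by
  set f : ℤ[X] := ∑ i ∈ S, X ^ (n i) with hf
  have h1 : aeval (e1 (1 / 24)) f = 0 := by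
    rw [hf, map_sum, ← h]
    apply Finset.sum_congr rfl
    intro i _
    rw [map_pow, aeval_X, ← e1_nat_mul]
    congr 1
    ring
  have h2 : cyclotomic 24 ℤ ∣ f := by
    rw [cyclotomic_eq_minpoly isPrimitiveRoot_e1 (by norm_num)]
    exact minpoly.isIntegrallyClosed_dvd (isPrimitiveRoot_e1.isIntegral (by norm_num)) h1
  obtain ⟨q, hq⟩ := h2
  have h3 : (f.map (Int.castRingHom (ZMod 241))).eval 2 = 0 := by
    rw [hq, Polynomial.map_mul, map_cyclotomic, eval_mul, root2, zero_mul]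
  rw [hf, Polynomial.map_sum, eval_finsetSum] at h3
  simpa using h3

/-- the zero set of the 12-point exponential sum in the 24-torsion -/
def Z12 : Finset (ZMod 24 × ZMod 24) :=
  {(0, 4), (0, 8), (0, 12), (0, 16), (0, 20), (4, 0), (8, 0), (8, 16), (12, 0), (16, 0),
    (16, 8), (20, 0)}

def s241 (a b : Fin 24) : ℕ :=
  ∑ j : Fin 6, ∑ i : Fin 2, 2 ^ ((a.val * j.val + b.val * (bb j i).toNat) % 24)

theorem z12_check : ∀ a b : Fin 24, s241 a b % 241 = 0 →
    ((a.val : ZMod 24), (b.val : ZMod 24)) ∈ Z12 := by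
  decide +kernel

theorem zero_mem (z0 z1 : ℤ)
    (h : ∑ j : Fin 6, ∑ i : Fin 2, e1 (((z0 : ℝ) / 24) * j.val + ((z1 : ℝ) / 24) * bb j i) = 0) :
    ((z0 : ZMod 24), (z1 : ZMod 24)) ∈ Z12 := by
  obtain ⟨a, ha⟩ : ∃ a : Fin 24, (a.val : ℤ) = z0 % 24 :=
    ⟨⟨(z0 % 24).toNat, by omega⟩, Int.toNat_of_nonneg (by omega)⟩
  obtain ⟨b, hb⟩ : ∃ b : Fin 24, (b.val : ℤ) = z1 % 24 :=
    ⟨⟨(z1 % 24).toNat, by omega⟩, Int.toNat_of_nonneg (by omega)⟩
  have h1 : ∀ (j : Fin 6) (i : Fin 2), e1 (((z0 : ℝ) / 24) * j.val + ((z1 : ℝ) / 24) * bb j i) =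
      e1 ((((a.val * j.val + b.val * (bb j i).toNat) % 24 : ℕ) : ℝ) / 24) := by
    intro j i
    have hbb : (((bb j i).toNat : ℕ) : ℤ) = bb j i := Int.toNat_of_nonneg (bb_bounds j i).1
    have e : ∃ w : ℤ, z0 * j.val + z1 * bb j i =
        ((a.val * j.val + b.val * (bb j i).toNat) % 24 : ℕ) + 24 * w := by
      refine ⟨(z0 / 24) * j.val + (z1 / 24) * bb j i +
        (a.val * j.val + b.val * bb j i) / 24, ?_⟩
      push_cast
      rw [hbb]
      have e0 := Int.emod_add_mul_ediv z0 24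
      have e1' := Int.emod_add_mul_ediv z1 24
      have e2 := Int.emod_add_mul_ediv (a.val * j.val + b.val * bb j i : ℤ) 24
      rw [← ha] at e0
      rw [← hb] at e1'
      linear_combination (-(j.val : ℤ)) * e0 - (bb j i) * e1' - e2
    obtain ⟨w, hw⟩ := e
    generalize (a.val * j.val + b.val * (bb j i).toNat) % 24 = N at hw ⊢
    have e3 : ((z0 : ℝ) / 24) * j.val + ((z1 : ℝ) / 24) * bb j i =
        (N : ℝ) / 24 + (w : ℝ) := by
      have : ((z0 * j.val + z1 * bb j i : ℤ) : ℝ) = (((N : ℤ) + 24 * w : ℤ) : ℝ) := by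
        rw [hw]
      push_cast at this
      field_simp
      linarith
    rw [e3, e1_add, e1_int, mul_one]
  simp_rw [h1] at h
  rw [← Fintype.sum_prod_type'
    (f := fun (j : Fin 6) (i : Fin 2) =>
      e1 ((((a.val * j.val + b.val * (bb j i).toNat) % 24 : ℕ) : ℝ) / 24))] at h
  have h2 := dvd241 Finset.univ
    (fun p : Fin 6 × Fin 2 => (a.val * p.1.val + b.val * (bb p.1 p.2).toNat) % 24) h
  rw [Fintype.sum_prod_type'
    (f := fun (j : Fin 6) (i : Fin 2) =>
      (2 : ZMod 241) ^ ((a.val * j.val + b.val * (bb j i).toNat) % 24))] at h2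
  have h3 : ((s241 a b : ℕ) : ZMod 241) = 0 := by
    rw [← h2]
    unfold s241
    push_cast
    rfl
  rw [ZMod.natCast_eq_zero_iff] at h3
  have h4 := z12_check a b (Nat.mod_eq_zero_of_dvd h3)
  have e0 : (z0 : ZMod 24) = (a.val : ZMod 24) := by
    have : ((a.val : ℤ) : ZMod 24) = (z0 : ZMod 24) := by
      rw [ha]
      exact ZMod.intCast_mod z0 24
    rw [← this]
    push_cast
    rfl
  have e1' : (z1 : ZMod 24) = (b.val : ZMod 24) := by
    have : ((b.val : ℤ) : ZMod 24) = (z1 : ZMod 24) := by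
      rw [hb]
      exact ZMod.intCast_mod z1 24
    rw [← this]
    push_cast
    rfl
  rw [e0, e1']
  exact h4

theorem clique_bound (S : Finset (ZMod 24 × ZMod 24))
    (h : ∀ s ∈ S, ∀ t ∈ S, s ≠ t → s - t ∈ Z12) : S.card ≤ 11 := by
  by_contra hc
  push Not at hc
  obtain ⟨s0, hs0⟩ : S.Nonempty := by
    rw [← Finset.card_pos]
    omega
  set D := (S.erase s0).image (fun s => s - s0) with hD
  have hcard : D.card = S.card - 1 := by
    rw [hD, Finset.card_image_of_injective _ (fun a b hab => sub_left_injective hab),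
      Finset.card_erase_of_mem hs0]
  have hsub : D ⊆ Z12 := by
    intro d hd
    rw [hD, Finset.mem_image] at hd
    obtain ⟨s, hs, rfl⟩ := hd
    rw [Finset.mem_erase] at hs
    exact h s hs.2 s0 hs0 hs.1
  have hdiff : ∀ d ∈ D, ∀ e ∈ D, d ≠ e → d - e ∈ Z12 := by
    intro d hd e he hne
    rw [hD, Finset.mem_image] at hd he
    obtain ⟨s, hs, rfl⟩ := hd
    obtain ⟨t, ht, rfl⟩ := he
    rw [Finset.mem_erase] at hs ht
    have : (s - s0) - (t - s0) = s - t := by ring
    rw [this]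
    apply h s hs.2 t ht.2
    rintro rfl
    exact hne rfl
  have c1 : ∃ d ∈ Z12, d ∉ D ∧ (d = (4, 0) ∨ d = (0, 4)) := by
    by_contra hcc
    push Not at hcc
    have m1 : ((4, 0) : ZMod 24 × ZMod 24) ∈ D := by
      by_contra hh
      exact (hcc (4, 0) (by decide) hh).1 rfl
    have m2 : ((0, 4) : ZMod 24 × ZMod 24) ∈ D := by
      by_contra hh
      exact (hcc (0, 4) (by decide) hh).2 rfl
    have := hdiff _ m1 _ m2 (by decide)
    revert this
    decide
  have c2 : ∃ d ∈ Z12, d ∉ D ∧ (d = (12, 0) ∨ d = (0, 12)) := by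
    by_contra hcc
    push Not at hcc
    have m1 : ((12, 0) : ZMod 24 × ZMod 24) ∈ D := by
      by_contra hh
      exact (hcc (12, 0) (by decide) hh).1 rfl
    have m2 : ((0, 12) : ZMod 24 × ZMod 24) ∈ D := by
      by_contra hh
      exact (hcc (0, 12) (by decide) hh).2 rfl
    have := hdiff _ m1 _ m2 (by decide)
    revert this
    decide
  obtain ⟨d1, hd1, hd1', h1⟩ := c1
  obtain ⟨d2, hd2, hd2', h2⟩ := c2
  have hne : d1 ≠ d2 := by
    rcases h1 with rfl | rfl <;> rcases h2 with rfl | rfl <;> decide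
  have hsub2 : D ⊆ (Z12.erase d1).erase d2 := by
    intro d hd
    rw [Finset.mem_erase, Finset.mem_erase]
    refine ⟨?_, ?_, hsub hd⟩
    · rintro rfl
      exact hd2' hd
    · rintro rfl
      exact hd1' hd
  have hle := Finset.card_le_card hsub2
  rw [Finset.card_erase_of_mem, Finset.card_erase_of_mem hd1] at hle
  · have : Z12.card = 12 := by decide
    omega
  · rw [Finset.mem_erase]
    exact ⟨hne.symm, hd2⟩

end Pool.Agent.H414R3.NS
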