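import Pool.Agent.H414R3.Window
import Pool.Agent.H414R3.NSZero
import Pool.Agent.H414R3.NSOrth
import Pool.Agent.H414R3.Kappa

set_option autoImplicit false
open MeasureTheory Set
open scoped ComplexConjugate ENNReal

namespace Pool.Agent.H414R3.NS

open Pool.Agent.Helper569.Spec

theorem ee_eq_ex {d : ℕ} (l x : EuclideanSpace ℝ (Fin d)) : ee l x = ex l x := by
  unfold ee ex
  congr 1
  ring

/-- the set -/
def Om (k : ℕ) : Set (EuclideanSpace ℝ (Fin 2)) := {x | cel x ∈ Ek k}

theorem measurableSet_Om (k : ℕ) : MeasurableSet (Om k) :=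
  measurable_cel (Finset.measurableSet (Ek k))

theorem Om_eq (k : ℕ) : Om k = ⋃ m ∈ Ek k, cell m := by
  ext x
  simp [Om, cell]

theorem indicator_Om (k : ℕ) (x : EuclideanSpace ℝ (Fin 2)) :
    (Om k).indicator (fun _ => (1 : ℂ)) x = g k (cel x) := by
  unfold g
  by_cases h : cel x ∈ Ek k
  · rw [if_pos h, indicator_of_mem]
    exact h
  · rw [if_neg h, indicator_of_notMem]
    exact h

theorem card_Ek (k : ℕ) : (Ek k).card = 12 * k ^ 2 := by
  unfold Ek
  rw [Finset.card_image_of_injective _ (pt_injective k)]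
  simp
  ring

theorem volume_Om (k : ℕ) : volume (Om k) = ((12 * k ^ 2 : ℕ) : ℝ≥0∞) := by
  rw [Om_eq, measure_biUnion_finset]
  · simp_rw [volume_cell]
    rw [Finset.sum_const, card_Ek]
    simp
  · intro m _ n _ hmn
    exact cell_disjoint hmn
  · intro m _
    exact measurableSet_cell m

theorem bounded_Om (k : ℕ) : Bornology.IsBounded (Om k) := by
  rw [Om_eq]
  rw [Bornology.isBounded_biUnion_finset]
  intro m _
  rw [isBounded_iff_forall_norm_le]
  refine ⟨Real.sqrt (∑ i, (|(m i : ℝ)| + 1) ^ 2), ?_⟩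
  intro x hx
  rw [EuclideanSpace.norm_eq]
  apply Real.sqrt_le_sqrt
  apply Finset.sum_le_sum
  intro i _
  have h1 : ⌈x i⌉ = m i := congrFun hx i
  rw [Int.ceil_eq_iff] at h1
  have h2 : |x i| ≤ |(m i : ℝ)| + 1 := by
    rw [abs_le]
    have := neg_abs_le (m i : ℝ)
    have := le_abs_self (m i : ℝ)
    constructor <;> linarith
  rw [Real.norm_eq_abs]
  gcongr

/-- the 12-point exponential sum -/
noncomputable def v12 (a b : ℝ) : ℂ := ∑ j : Fin 6, ∑ i : Fin 2, e1 (a * j.val + b * bb j i)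

theorem grid_min : ∃ c : ℝ, 0 < c ∧ ∀ z0 z1 : ℤ, |z0| ≤ 23 → |z1| ≤ 23 →
    v12 ((z0 : ℝ) / 24) ((z1 : ℝ) / 24) ≠ 0 → c ≤ ‖v12 ((z0 : ℝ) / 24) ((z1 : ℝ) / 24)‖ := by
  classical
  obtain ⟨p, hp, hmin⟩ := Finset.exists_min_image
    ((Finset.Icc (-23 : ℤ) 23) ×ˢ (Finset.Icc (-23 : ℤ) 23))
    (fun z : ℤ × ℤ => if v12 ((z.1 : ℝ) / 24) ((z.2 : ℝ) / 24) = 0 then (1 : ℝ) else
      ‖v12 ((z.1 : ℝ) / 24) ((z.2 : ℝ) / 24)‖) ⟨(0, 0), by simp⟩
  refine ⟨if v12 ((p.1 : ℝ) / 24) ((p.2 : ℝ) / 24) = 0 then (1 : ℝ) else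
      ‖v12 ((p.1 : ℝ) / 24) ((p.2 : ℝ) / 24)‖, ?_, ?_⟩
  · split_ifs with h
    · norm_num
    · exact norm_pos_iff.2 h
  · intro z0 z1 h0 h1 hne
    have := hmin (z0, z1) (by
      rw [Finset.mem_product, Finset.mem_Icc, Finset.mem_Icc]
      exact ⟨abs_le.1 h0, abs_le.1 h1⟩)
    simp only at this
    rw [if_neg hne] at this
    exact this

theorem v12_close (a b s t : ℝ) (δ : ℝ) (hs : |s| ≤ δ) (ht : |t| ≤ δ) :
    ‖v12 a b - v12 (a + s) (b + t)‖ ≤ 240 * Real.pi * δ := by
  have hδ : 0 ≤ δ := (abs_nonneg s).trans hs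
  have h1 : v12 a b - v12 (a + s) (b + t) =
      ∑ j : Fin 6, ∑ i : Fin 2, (- e1 (a * j.val + b * bb j i)) *
        (e1 (s * j.val + t * bb j i) - 1) := by
    unfold v12
    rw [← Finset.sum_sub_distrib]
    apply Finset.sum_congr rfl
    intro j _
    rw [← Finset.sum_sub_distrib]
    apply Finset.sum_congr rfl
    intro i _
    have : (a + s) * (j.val : ℝ) + (b + t) * bb j i =
        (a * j.val + b * bb j i) + (s * j.val + t * bb j i) := by ring
    rw [this, e1_add (a * j.val + b * bb j i) (s * j.val + t * bb j i)]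
    ring
  rw [h1]
  have h2 : ∀ (j : Fin 6) (i : Fin 2), ‖(- e1 (a * j.val + b * bb j i)) *
        (e1 (s * j.val + t * bb j i) - 1)‖ ≤ 20 * Real.pi * δ := by
    intro j i
    rw [norm_mul, norm_neg, norm_e1, one_mul]
    refine (norm_e1_sub_one_le _).trans ?_
    have hj : (j.val : ℝ) ≤ 5 := by
      have : j.val ≤ 5 := by omega
      exact_mod_cast this
    have hj0 : (0 : ℝ) ≤ j.val := by positivity
    have hb : (bb j i : ℝ) ≤ 5 := by
      have := (bb_bounds j i).2
      have : bb j i ≤ 5 := by omega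
      exact_mod_cast this
    have hb0 : (0 : ℝ) ≤ bb j i := by
      exact_mod_cast (bb_bounds j i).1
    have h3 : |s * j.val + t * bb j i| ≤ 10 * δ := by
      refine (abs_add_le _ _).trans ?_
      rw [abs_mul, abs_mul, abs_of_nonneg hj0, abs_of_nonneg hb0]
      nlinarith [mul_le_mul hs hj hj0 hδ, mul_le_mul ht hb hb0 hδ]
    have := Real.pi_pos
    nlinarith
  calc ‖∑ j : Fin 6, ∑ i : Fin 2, (- e1 (a * j.val + b * bb j i)) *
        (e1 (s * j.val + t * bb j i) - 1)‖
      ≤ ∑ j : Fin 6, ∑ i : Fin 2, ‖(- e1 (a * j.val + b * bb j i)) *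
        (e1 (s * j.val + t * bb j i) - 1)‖ := by
        refine (norm_sum_le _ _).trans ?_
        apply Finset.sum_le_sum
        intro j _
        exact norm_sum_le _ _
    _ ≤ ∑ j : Fin 6, ∑ i : Fin 2, 20 * Real.pi * δ :=
        Finset.sum_le_sum fun j _ => Finset.sum_le_sum fun i _ => h2 j i
    _ = 240 * Real.pi * δ := by
        simp
        ring

/-- orthogonality of two exponentials at a small window distance forces a zero of the
12-point sum on the grid -/
theorem zero_of_orth (k : ℕ) (hk : 0 < k) (c : ℝ)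
    (hc : ∀ z0 z1 : ℤ, |z0| ≤ 23 → |z1| ≤ 23 →
      v12 ((z0 : ℝ) / 24) ((z1 : ℝ) / 24) ≠ 0 → c ≤ ‖v12 ((z0 : ℝ) / 24) ((z1 : ℝ) / 24)‖)
    (hkc : 10 * Real.pi / k < c) (ζ : EuclideanSpace ℝ (Fin 2)) (z0 z1 : ℤ)
    (h0 : |z0| ≤ 23) (h1 : |z1| ≤ 23) (hs0 : |ζ 0 - z0 / 24| < 1 / (24 * k))
    (hs1 : |ζ 1 - z1 / 24| < 1 / (24 * k)) (horth : ∫ x in Om k, ex ζ x = 0) :
    ((z0 : ZMod 24), (z1 : ZMod 24)) ∈ Z12 := by
  have hk' : (0 : ℝ) < k := by exact_mod_cast hk
  have hk1 : (1 : ℝ) ≤ k := by exact_mod_cast hk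
  have e1' : ∫ x in Om k, ex ζ x = (∑ m ∈ Ek k, g k m * ex ζ (zv m)) * ∫ x in cell 0, ex ζ x := by
    rw [← integral_step (g k) (Ek k) (hg k) ζ, ← integral_indicator (measurableSet_Om k)]
    apply integral_congr_ae
    filter_upwards with x
    rw [← indicator_Om]
    by_cases hx : x ∈ Om k
    · rw [indicator_of_mem hx, indicator_of_mem hx, one_mul]
    · rw [indicator_of_notMem hx, indicator_of_notMem hx, zero_mul]
  have hz0 : |(z0 : ℝ)| ≤ 23 := by exact_mod_cast h0
  have hz1 : |(z1 : ℝ)| ≤ 23 := by exact_mod_cast h1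
  have hkinv : (1 : ℝ) / (24 * k) ≤ 1 / 24 := by
    apply one_div_le_one_div_of_le (by norm_num)
    linarith
  have hκ : ∫ x in cell 0, ex ζ x ≠ 0 := by
    apply kappa_ne_zero
    intro i
    fin_cases i
    · have : ζ 0 = (ζ 0 - z0 / 24) + z0 / 24 := by ring
      show |ζ 0| < 1
      rw [this]
      refine (abs_add_le _ _).trans_lt ?_
      rw [abs_div, abs_of_pos (by norm_num : (0 : ℝ) < 24)]
      linarith
    · have : ζ 1 = (ζ 1 - z1 / 24) + z1 / 24 := by ring
      show |ζ 1| < 1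
      rw [this]
      refine (abs_add_le _ _).trans_lt ?_
      rw [abs_div, abs_of_pos (by norm_num : (0 : ℝ) < 24)]
      linarith
  rw [horth] at e1'
  have e2 := (mul_eq_zero.1 e1'.symm).resolve_right hκ
  have e3 : ∑ m ∈ Ek k, g k m * ex ζ (zv m) =
      v12 (ζ 0) (ζ 1) * ((∑ a : Fin k, e1 ((z0 + 24 * (ζ 0 - z0 / 24)) * (a.val : ℝ))) *
        (∑ c : Fin k, e1 ((z1 + 24 * (ζ 1 - z1 / 24)) * (c.val : ℝ)))) := by
    rw [sum_Ek]
    have hpt : ∀ q, g k (pt k q) = 1 := by
      intro q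
      exact if_pos (Finset.mem_image_of_mem _ (Finset.mem_univ q))
    simp_rw [hpt, one_mul]
    unfold v12
    rw [Finset.sum_mul]
    apply Finset.sum_congr rfl
    intro j _
    rw [Finset.sum_mul_sum, Finset.sum_mul_sum, Finset.sum_comm]
    apply Finset.sum_congr rfl
    intro i _
    apply Finset.sum_congr rfl
    intro a _
    rw [Finset.mul_sum]
    apply Finset.sum_congr rfl
    intro c _
    rw [ex_zv, ← e1_add, ← e1_add]
    congr 1
    simp [pt]
    ring
  rw [e3] at e2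
  have hg0 := geo_ne_zero k hk z0 (24 * (ζ 0 - z0 / 24)) (by
    rw [abs_mul, abs_of_pos (by norm_num : (0 : ℝ) < 24)]
    have : (1 : ℝ) / k = 24 * (1 / (24 * k)) := by field_simp
    rw [this]
    linarith)
  have hg1 := geo_ne_zero k hk z1 (24 * (ζ 1 - z1 / 24)) (by
    rw [abs_mul, abs_of_pos (by norm_num : (0 : ℝ) < 24)]
    have : (1 : ℝ) / k = 24 * (1 / (24 * k)) := by field_simp
    rw [this]
    linarith)
  have e4 := (mul_eq_zero.1 e2).resolve_right (mul_ne_zero hg0 hg1)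
  apply zero_mem
  by_contra hne
  have h5 := hc z0 z1 h0 h1 hne
  have h6 := v12_close ((z0 : ℝ) / 24) ((z1 : ℝ) / 24) (ζ 0 - z0 / 24) (ζ 1 - z1 / 24)
    (1 / (24 * k)) hs0.le hs1.le
  have h7 : (z0 : ℝ) / 24 + (ζ 0 - z0 / 24) = ζ 0 := by ring
  have h8 : (z1 : ℝ) / 24 + (ζ 1 - z1 / 24) = ζ 1 := by ring
  rw [h7, h8, e4, sub_zero] at h6
  have h9 : 240 * Real.pi * (1 / (24 * k)) = 10 * Real.pi / k := by
    field_simp
    ring
  rw [h9] at h6
  linarith

/-- the window -/
def Wn (k : ℕ) : Set (EuclideanSpace ℝ (Fin 2)) :=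
  (fun x : EuclideanSpace ℝ (Fin 2) => ((24 * k : ℕ) : ℝ) • x) ⁻¹'
    (⋃ n ∈ (Finset.univ : Finset (Fin 24 × Fin 24)), cell ![(k : ℤ) * n.1.val, (k : ℤ) * n.2.val])

theorem measurableSet_Wn (k : ℕ) : MeasurableSet (Wn k) := by
  apply measurableSet_preimage (by fun_prop)
  exact Finset.measurableSet_biUnion _ (fun n _ => measurableSet_cell _)

theorem volume_Wn (k : ℕ) (hk : 0 < k) : volume (Wn k) * ((k ^ 2 : ℕ) : ℝ≥0∞) = 1 := by
  unfold Wn
  have hr : ((24 * k : ℕ) : ℝ) ≠ 0 := by positivity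
  rw [Measure.addHaar_preimage_smul _ hr, measure_biUnion_finset]
  · simp_rw [volume_cell]
    rw [Finset.sum_const, Finset.card_univ]
    simp only [Fintype.card_prod, Fintype.card_fin, finrank_euclideanSpace, nsmul_eq_mul, mul_one]
    have h1 : |(((24 * k : ℕ) : ℝ) ^ 2)⁻¹| = (((24 * k : ℕ) : ℝ) ^ 2)⁻¹ := abs_of_pos (by positivity)
    rw [h1]
    have h2 : ((24 * 24 : ℕ) : ℝ≥0∞) = ENNReal.ofReal ((24 * 24 : ℕ) : ℝ) :=
      (ENNReal.ofReal_natCast _).symm
    have h3 : ((k ^ 2 : ℕ) : ℝ≥0∞) = ENNReal.ofReal ((k ^ 2 : ℕ) : ℝ) :=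
      (ENNReal.ofReal_natCast _).symm
    rw [h2, h3, ← ENNReal.ofReal_mul (by positivity), ← ENNReal.ofReal_mul (by positivity)]
    rw [← ENNReal.ofReal_one]
    congr 1
    push_cast
    field_simp
    norm_num
  · intro m _ n _ hmn
    apply cell_disjoint
    intro h
    apply hmn
    have h0 := congrFun h 0
    have h1 := congrFun h 1
    simp only [Matrix.cons_val_zero, Matrix.cons_val_one] at h0 h1
    have hk' : (k : ℤ) ≠ 0 := by positivity
    have h0' := mul_left_cancel₀ hk' h0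
    have h1' := mul_left_cancel₀ hk' h1
    apply Prod.ext
    · apply Fin.ext
      exact_mod_cast h0'
    · apply Fin.ext
      exact_mod_cast h1'
  · intro m _
    exact measurableSet_cell _

theorem nonspectral : ∃ k : ℕ, k % 24 = 1 ∧ ∀ Λ : Set (EuclideanSpace ℝ (Fin 2)),
    ¬ IsSpectrum (Om k) Λ := by
  obtain ⟨c, hc, hmin⟩ := grid_min
  obtain ⟨K, hK⟩ := exists_nat_gt (10 * Real.pi / c)
  refine ⟨24 * K + 1, by omega, ?_⟩
  intro Λ hs
  have hkpos : 0 < 24 * K + 1 := by omega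
  have hkc : 10 * Real.pi / ((24 * K + 1 : ℕ) : ℝ) < c := by
    rw [div_lt_iff₀ (by positivity)]
    rw [div_lt_iff₀ hc] at hK
    push_cast
    nlinarith
  generalize 24 * K + 1 = k at hs hkpos hkc
  have hk' : (0 : ℝ) < k := by exact_mod_cast hkpos
  have h0 : 0 < volume (Om k) := by
    rw [volume_Om]
    have : 0 < 12 * k ^ 2 := by positivity
    exact_mod_cast this
  have hb := window_bound (Om k) Λ (measurableSet_Om k) (bounded_Om k) h0 hs (Wn k)
    (measurableSet_Wn k) 11 (by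
      intro y F hF
      classical
      have hch : ∀ l : EuclideanSpace ℝ (Fin 2), ∃ n : Fin 24 × Fin 24, l ∈ F →
          cel (((24 * k : ℕ) : ℝ) • (l - y)) = ![(k : ℤ) * n.1.val, (k : ℤ) * n.2.val] := by
        intro l
        by_cases hl : l ∈ F
        · have h1 := (hF l hl).2
          unfold Wn at h1
          rw [mem_preimage, mem_iUnion₂] at h1
          obtain ⟨n, -, hn⟩ := h1
          exact ⟨n, fun _ => hn⟩
        · exact ⟨(0, 0), fun h => absurd h hl⟩
      choose n hn using hch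
      have hkey : ∀ l ∈ F, ∀ l' ∈ F, l ≠ l' →
          ((((n l).1.val : ZMod 24), ((n l).2.val : ZMod 24)) : ZMod 24 × ZMod 24) -
          (((n l').1.val : ZMod 24), ((n l').2.val : ZMod 24)) ∈ Z12 := by
        intro l hl l' hl' hne
        have horth := hs.1 l (hF l hl).1 l' (hF l' hl').1 hne
        have h1 : ∀ x, ee l x * conj (ee l' x) = ex (l - l') x := by
          intro x
          rw [ee_eq_ex, ee_eq_ex, conj_ex, sub_eq_add_neg, ex_add_left]
        simp_rw [h1] at horth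
        have a0 := congrFun (hn l hl) 0
        have a1 := congrFun (hn l hl) 1
        have b0 := congrFun (hn l' hl') 0
        have b1 := congrFun (hn l' hl') 1
        simp only [cel, Matrix.cons_val_zero, Matrix.cons_val_one] at a0 a1 b0 b1
        rw [Int.ceil_eq_iff] at a0 a1 b0 b1
        simp only [PiLp.smul_apply, PiLp.sub_apply, smul_eq_mul] at a0 a1 b0 b1
        push_cast at a0 a1 b0 b1
        have hlt := (n l).1.isLt
        have hlt2 := (n l).2.isLt
        have hlt' := (n l').1.isLt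
        have hlt2' := (n l').2.isLt
        have res := zero_of_orth k hkpos c hmin hkc (l - l')
          ((n l).1.val - (n l').1.val : ℤ) ((n l).2.val - (n l').2.val : ℤ)
          (by rw [abs_le]; omega) (by rw [abs_le]; omega)
          (by
            rw [PiLp.sub_apply]
            push_cast
            rw [lt_div_iff₀ (by positivity), ← abs_of_pos (by positivity : (0 : ℝ) < 24 * k),
              ← abs_mul, abs_lt]
            constructor <;> nlinarith [a0.1, a0.2, b0.1, b0.2])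
          (by
            rw [PiLp.sub_apply]
            push_cast
            rw [lt_div_iff₀ (by positivity), ← abs_of_pos (by positivity : (0 : ℝ) < 24 * k),
              ← abs_mul, abs_lt]
            constructor <;> nlinarith [a1.1, a1.2, b1.1, b1.2])
          horth
        push_cast at res
        exact res
      have hinj : Set.InjOn (fun l => ((((n l).1.val : ZMod 24), ((n l).2.val : ZMod 24)) :
          ZMod 24 × ZMod 24)) F := by
        intro l hl l' hl' heq
        by_contra hne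
        have h2 := hkey l hl l' hl' hne
        simp only at heq
        rw [heq, sub_self] at h2
        revert h2
        decide
      rw [← Finset.card_image_of_injOn hinj]
      apply clique_bound
      intro s hs' t ht hst
      rw [Finset.mem_image] at hs' ht
      obtain ⟨l, hl, rfl⟩ := hs'
      obtain ⟨l', hl', rfl⟩ := ht
      apply hkey l hl l' hl'
      rintro rfl
      exact hst rfl)
  rw [volume_Om] at hb
  have h3 := volume_Wn k hkpos
  have h4 : volume (Wn k) * ((12 * k ^ 2 : ℕ) : ℝ≥0∞) = 12 := by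
    calc volume (Wn k) * ((12 * k ^ 2 : ℕ) : ℝ≥0∞)
        = 12 * (volume (Wn k) * ((k ^ 2 : ℕ) : ℝ≥0∞)) := by push_cast; ring
      _ = 12 := by rw [h3, mul_one]
  rw [h4] at hb
  have : ((12 : ℕ) : ℝ≥0∞) ≤ ((11 : ℕ) : ℝ≥0∞) := by exact_mod_cast hb
  rw [Nat.cast_le] at this
  omega

end Pool.Agent.H414R3.NS
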