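import Pool.Agent.H414R3.OSProf

/-! Integrals of the counterexample weight. -/

open MeasureTheory Set Filter Topology
open scoped ENNReal NNReal

namespace Pool.Agent.H414R3.OS

/-- the dual weight as an extended nonnegative function -/
noncomputable def sg (L x : ℝ) : ℝ≥0∞ := ENNReal.ofReal ((prof L |x|)⁻¹)

/-- the weight as an extended nonnegative function -/
noncomputable def wg (L x : ℝ) : ℝ≥0∞ := ENNReal.ofReal (prof L |x|)

lemma measurable_sg (L : ℝ) : Measurable (sg L) :=
  ((measurable_prof L).comp measurable_norm).inv.ennreal_ofReal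

lemma measurable_wg (L : ℝ) : Measurable (wg L) :=
  ((measurable_prof L).comp measurable_norm).ennreal_ofReal

lemma sg_neg (L x : ℝ) : sg L (-x) = sg L x := by simp [sg]

lemma sg_anti {L x y : ℝ} (hL : 1 ≤ L) (h : |x| ≤ |y|) : sg L y ≤ sg L x := by
  unfold sg
  apply ENNReal.ofReal_le_ofReal
  exact inv_anti₀ (prof_pos hL) (prof_mono hL h)

lemma sg_le_core {L x : ℝ} (hL : 1 ≤ L) :
    sg L x ≤ ENNReal.ofReal ((2 * Real.exp (-L))⁻¹) := by
  unfold sg
  apply ENNReal.ofReal_le_ofReal
  exact inv_anti₀ (by positivity) (prof_ge hL)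

lemma wg_mono {L x y : ℝ} (hL : 1 ≤ L) (h : |x| ≤ |y|) : wg L x ≤ wg L y := by
  unfold wg
  exact ENNReal.ofReal_le_ofReal (prof_mono hL h)

lemma lint_even {f : ℝ → ℝ≥0∞} (hf : ∀ x, f (-x) = f x) {r : ℝ} (hr : 0 ≤ r) :
    ∫⁻ x in Icc (-r) r, f x = 2 * ∫⁻ x in Icc 0 r, f x := by
  have h1 : ∫⁻ x in Icc (-r) r, f x = (∫⁻ x in Icc (-r) 0, f x) + ∫⁻ x in Ioc 0 r, f x := by
    rw [← Icc_union_Ioc_eq_Icc (by linarith : -r ≤ 0) hr]
    apply lintegral_union measurableSet_Ioc
    rw [Set.disjoint_left]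
    intro x hx hx2
    exact absurd hx2.1 (not_lt.mpr hx.2)
  have h2 : ∫⁻ x in Icc (-r) 0, f x = ∫⁻ x in Icc 0 r, f x := by
    have hm : MeasurePreserving (fun x : ℝ => -x) volume volume :=
      Measure.measurePreserving_neg volume
    have he : MeasurableEmbedding (fun x : ℝ => -x) := (Homeomorph.neg ℝ).measurableEmbedding
    have := hm.setLIntegral_comp_preimage_emb he f (Icc 0 r)
    rw [← this]
    have hset : (fun x : ℝ => -x) ⁻¹' Icc 0 r = Icc (-r) 0 := by
      ext x; simp only [mem_preimage, mem_Icc]; constructor <;> rintro ⟨a, b⟩ <;> constructor <;> linarith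
    rw [hset]
    simp [hf]
  have h3 : ∫⁻ x in Ioc 0 r, f x = ∫⁻ x in Icc 0 r, f x :=
    setLIntegral_congr Ioc_ae_eq_Icc
  rw [h1, h2, h3, two_mul]

/-- derivative computation for the mass of the dual weight -/
lemma int_mid {L : ℝ} (hL : 0 ≤ L) :
    ∫⁻ x in Icc (Real.exp (-L)) 1, ENNReal.ofReal ((1 + L + Real.log x) / ((1 + L) ^ 2 * x))
      ≤ ENNReal.ofReal (1 / 2) := by
  have e1 := Real.exp_pos (-L)
  have e0 : Real.exp (-L) ≤ 1 := by
    rw [Real.exp_le_one_iff]; linarith
  have hK : 0 < (1 + L) ^ 2 := by positivity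
  have hderiv : ∀ x ∈ Set.uIcc (Real.exp (-L)) 1,
      HasDerivAt (fun x => (1 + L + Real.log x) ^ 2 / (2 * (1 + L) ^ 2))
        ((1 + L + Real.log x) / ((1 + L) ^ 2 * x)) x := by
    intro x hx
    rw [Set.uIcc_of_le e0] at hx
    have hx0 : x ≠ 0 := by have := hx.1; intro h; linarith
    have h1 := ((Real.hasDerivAt_log hx0).const_add (1 + L)).pow 2
    have hL1 : (1 + L) ≠ 0 := by linarith
    refine HasDerivAt.congr_deriv (h1.div_const (2 * (1 + L) ^ 2)) ?_
    norm_num
    field_simp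
  have hcont : ContinuousOn (fun x : ℝ => (1 + L + Real.log x) / ((1 + L) ^ 2 * x))
      (Set.uIcc (Real.exp (-L)) 1) := by
    rw [Set.uIcc_of_le e0]
    apply ContinuousOn.div
    · apply ContinuousOn.add continuousOn_const
      apply Real.continuousOn_log.mono
      intro x hx
      have := hx.1
      simp only [mem_compl_iff, mem_singleton_iff]; intro h; linarith
    · exact (continuous_const.mul continuous_id).continuousOn
    · intro x hx
      have := hx.1
      have : 0 < x := by linarith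
      positivity
  have hint := intervalIntegral.integral_eq_sub_of_hasDerivAt hderiv hcont.intervalIntegrable
  rw [intervalIntegral.integral_of_le e0, ← integral_Icc_eq_integral_Ioc] at hint
  rw [← ofReal_integral_eq_lintegral_ofReal]
  · rw [hint]
    apply ENNReal.ofReal_le_ofReal
    rw [Real.log_one, Real.log_exp]
    have : (1 + L + -L : ℝ) = 1 := by ring
    rw [this]
    have h2 : (1 + L + 0) ^ 2 / (2 * (1 + L) ^ 2) = 1 / 2 := by
      rw [add_zero]; field_simp
    rw [h2]
    have : 0 ≤ (1:ℝ) ^ 2 / (2 * (1 + L) ^ 2) := by positivity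
    linarith
  · rw [Set.uIcc_of_le e0] at hcont
    exact hcont.integrableOn_Icc
  · filter_upwards [ae_restrict_mem measurableSet_Icc] with x hx
    have d := den_pos (L := L) hx.1
    have : 0 < x := by linarith [hx.1]
    positivity

lemma mass01 {L : ℝ} (hL : 1 ≤ L) : ∫⁻ x in Icc 0 1, sg L x ≤ 1 := by
  have e1 := Real.exp_pos (-L)
  have e0 : Real.exp (-L) ≤ 1 := by
    rw [Real.exp_le_one_iff]; linarith
  have h1 : Icc (0:ℝ) 1 = Ico 0 (Real.exp (-L)) ∪ Icc (Real.exp (-L)) 1 :=
    (Ico_union_Icc_eq_Icc e1.le e0).symm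
  have h2 : ∫⁻ x in Icc 0 1, sg L x ≤ (∫⁻ x in Ico 0 (Real.exp (-L)), sg L x)
      + ∫⁻ x in Icc (Real.exp (-L)) 1, sg L x := by
    rw [h1]; exact lintegral_union_le _ _ _
  have h3 : ∫⁻ x in Ico 0 (Real.exp (-L)), sg L x ≤ ENNReal.ofReal (1 / 2) := by
    calc ∫⁻ x in Ico 0 (Real.exp (-L)), sg L x
        ≤ ∫⁻ x in Ico 0 (Real.exp (-L)), ENNReal.ofReal ((2 * Real.exp (-L))⁻¹) :=
          lintegral_mono fun x => sg_le_core hL
      _ = ENNReal.ofReal (1 / 2) := by
          rw [setLIntegral_const, Real.volume_Ico, ← ENNReal.ofReal_mul (by positivity)]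
          congr 1
          field_simp
          ring
  have h4 : ∫⁻ x in Icc (Real.exp (-L)) 1, sg L x ≤ ENNReal.ofReal (1 / 2) := by
    refine le_trans (le_of_eq ?_) (int_mid (L := L) (by linarith))
    apply setLIntegral_congr_fun measurableSet_Icc
    intro x hx
    have hx0 : 0 < x := by linarith [hx.1]
    simp only [sg]
    rw [abs_of_pos hx0, prof_mid hx.1 hx.2, inv_div]
  calc ∫⁻ x in Icc 0 1, sg L x ≤ _ := h2
    _ ≤ ENNReal.ofReal (1 / 2) + ENNReal.ofReal (1 / 2) := add_le_add h3 h4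
    _ = 1 := by
      rw [← ENNReal.ofReal_add (by norm_num) (by norm_num)]; norm_num

/-- `sg ≤ sg·1_{[-1,1]} + s₀` -/
lemma sg_split {L : ℝ} (hL : 1 ≤ L) (x : ℝ) :
    sg L x ≤ (Icc (-1 : ℝ) 1).indicator (sg L) x + ENNReal.ofReal ((1 + L)⁻¹) := by
  by_cases h : x ∈ Icc (-1 : ℝ) 1
  · rw [indicator_of_mem h]; exact le_self_add
  · rw [indicator_of_notMem h, zero_add]
    have : 1 ≤ |x| := by
      by_contra hh
      push Not at hh
      exact h ⟨(abs_lt.mp hh).1.le, (abs_lt.mp hh).2.le⟩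
    unfold sg
    rw [prof_out (by linarith) this]

lemma mass11 {L : ℝ} (hL : 1 ≤ L) : ∫⁻ x, (Icc (-1 : ℝ) 1).indicator (sg L) x ≤ 2 := by
  rw [lintegral_indicator measurableSet_Icc, lint_even (sg_neg L) zero_le_one]
  calc 2 * ∫⁻ x in Icc 0 1, sg L x ≤ 2 * 1 := by gcongr; exact mass01 hL
    _ = 2 := mul_one _

lemma mass0r {L r : ℝ} (hL : 1 ≤ L) :
    ∫⁻ x in Icc 0 r, sg L x ≤ 1 + ENNReal.ofReal (r / (1 + L)) := by
  calc ∫⁻ x in Icc 0 r, sg L x
      ≤ ∫⁻ x in Icc 0 r, ((Icc (-1 : ℝ) 1).indicator (sg L) x + ENNReal.ofReal ((1 + L)⁻¹)) :=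
        lintegral_mono fun x => sg_split hL x
    _ = (∫⁻ x in Icc 0 r, (Icc (-1 : ℝ) 1).indicator (sg L) x)
        + ENNReal.ofReal ((1 + L)⁻¹) * volume (Icc 0 r) := by
        rw [lintegral_add_right _ measurable_const, setLIntegral_const]
    _ ≤ 1 + ENNReal.ofReal (r / (1 + L)) := by
        gcongr
        · rw [← lintegral_indicator measurableSet_Icc]
          have : ∀ x, (Icc 0 r).indicator (fun a => (Icc (-1 : ℝ) 1).indicator (sg L) a) x
              ≤ (Icc (0 : ℝ) 1).indicator (sg L) x := by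
            intro x
            by_cases h : x ∈ Icc 0 r
            · rw [indicator_of_mem h]
              by_cases h2 : x ∈ Icc (-1 : ℝ) 1
              · rw [indicator_of_mem h2, indicator_of_mem (show x ∈ Icc (0:ℝ) 1 from ⟨h.1, h2.2⟩)]
              · rw [indicator_of_notMem h2]; exact zero_le
            · rw [indicator_of_notMem h]; exact zero_le
          refine (lintegral_mono this).trans ?_
          rw [lintegral_indicator measurableSet_Icc]
          exact mass01 hL
        · rw [Real.volume_Icc, ← ENNReal.ofReal_mul (by positivity)]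
          apply ENNReal.ofReal_le_ofReal
          rw [sub_zero, inv_mul_eq_div]

lemma log_int {L r : ℝ} (h : Real.exp (-L) ≤ r) :
    ∫⁻ x in Icc (Real.exp (-L)) r, ENNReal.ofReal (4 / x) = ENNReal.ofReal (4 * (L + Real.log r)) := by
  have e1 := Real.exp_pos (-L)
  have hpos : ∀ x ∈ Icc (Real.exp (-L)) r, 0 < x := fun x hx => lt_of_lt_of_le e1 hx.1
  have hderiv : ∀ x ∈ Set.uIcc (Real.exp (-L)) r,
      HasDerivAt (fun x => 4 * Real.log x) (4 / x) x := by
    intro x hx
    rw [Set.uIcc_of_le h] at hx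
    have h1 := (Real.hasDerivAt_log (hpos x hx).ne').const_mul 4
    simpa [div_eq_mul_inv] using h1
  have hcont : ContinuousOn (fun x : ℝ => 4 / x) (Icc (Real.exp (-L)) r) := by
    apply ContinuousOn.div continuousOn_const continuousOn_id
    intro x hx
    exact (hpos x hx).ne'
  have hint := intervalIntegral.integral_eq_sub_of_hasDerivAt hderiv
    (by apply ContinuousOn.intervalIntegrable; rwa [Set.uIcc_of_le h])
  rw [intervalIntegral.integral_of_le h, ← integral_Icc_eq_integral_Ioc] at hint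
  rw [← ofReal_integral_eq_lintegral_ofReal hcont.integrableOn_Icc]
  · rw [hint, Real.log_exp]
    congr 1
    ring
  · filter_upwards [ae_restrict_mem measurableSet_Icc] with x hx
    have := hpos x hx
    positivity

end Pool.Agent.H414R3.OS
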