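import Pool.Agent.H414R3.OSMax

/-! Lower bounds for the counterexample weight. -/

open MeasureTheory Set Filter Topology
open scoped ENNReal NNReal

namespace Pool.Agent.H414R3.OS

/-- the test function: normalized indicator of the core -/
noncomputable def tf (L x : ℝ) : ℝ :=
  (Ioo (-Real.exp (-L)) (Real.exp (-L))).indicator (fun _ => (2 * Real.exp (-L))⁻¹) x

lemma measurable_tf (L : ℝ) : Measurable (tf L) :=
  measurable_const.indicator measurableSet_Ioo

lemma enorm_tf (L x : ℝ) : ‖tf L x‖ₑ =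
    (Ioo (-Real.exp (-L)) (Real.exp (-L))).indicator
      (fun _ => ENNReal.ofReal ((2 * Real.exp (-L))⁻¹)) x := by
  unfold tf
  by_cases h : x ∈ Ioo (-Real.exp (-L)) (Real.exp (-L))
  · rw [indicator_of_mem h, indicator_of_mem h]
    exact Real.enorm_of_nonneg (by positivity)
  · rw [indicator_of_notMem h, indicator_of_notMem h, enorm_zero]

lemma core_int (L : ℝ) : ∫⁻ x, (Ioo (-Real.exp (-L)) (Real.exp (-L))).indicator
      (fun _ => ENNReal.ofReal ((2 * Real.exp (-L))⁻¹)) x = 1 := by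
  have e1 := Real.exp_pos (-L)
  rw [lintegral_indicator measurableSet_Ioo, setLIntegral_const, Real.volume_Ioo,
    ← ENNReal.ofReal_mul (by positivity)]
  have : (2 * Real.exp (-L))⁻¹ * (Real.exp (-L) - -Real.exp (-L)) = 1 := by
    field_simp; ring
  rw [this, ENNReal.ofReal_one]

lemma tf_norm (L : ℝ) : ∫⁻ x, ‖tf L x‖ₑ ^ (2 : ℝ) * wg L x = 1 := by
  have e1 := Real.exp_pos (-L)
  rw [← core_int L]
  apply lintegral_congr
  intro x
  rw [enorm_tf]
  by_cases h : x ∈ Ioo (-Real.exp (-L)) (Real.exp (-L))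
  · rw [indicator_of_mem h]
    have hx : |x| < Real.exp (-L) := abs_lt.mpr ⟨h.1, h.2⟩
    unfold wg
    rw [prof_core hx, ENNReal.rpow_two, ← ENNReal.ofReal_pow (by positivity),
      ← ENNReal.ofReal_mul (by positivity)]
    congr 1
    field_simp
  · rw [indicator_of_notMem h]
    rw [ENNReal.zero_rpow_of_pos (by norm_num), zero_mul]

lemma maxFn_tf {L x : ℝ} (hx : Real.exp (-L) ≤ x) :
    ENNReal.ofReal ((2 * x)⁻¹) ≤ maxFn (fun y => ‖tf L y‖ₑ) x := by
  have e1 := Real.exp_pos (-L)
  have hx0 : 0 < x := by linarith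
  have h1 : avg (fun y => ‖tf L y‖ₑ) (Icc (-x) x) = ENNReal.ofReal ((2 * x)⁻¹) := by
    unfold avg
    have : ∫⁻ y in Icc (-x) x, ‖tf L y‖ₑ = 1 := by
      rw [← lintegral_indicator measurableSet_Icc, ← core_int L]
      apply lintegral_congr
      intro y
      by_cases h : y ∈ Icc (-x) x
      · rw [indicator_of_mem h, enorm_tf]
      · rw [indicator_of_notMem h, indicator_of_notMem]
        intro h2
        exact h ⟨by linarith [h2.1], by linarith [h2.2]⟩
    rw [this, mul_one, Real.volume_Icc, ← ENNReal.ofReal_inv_of_pos (by linarith)]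
    congr 2
    ring
  rw [← h1]
  unfold maxFn
  refine le_iSup_of_le (Icc (-x) x) (le_iSup_of_le ⟨-x, x, by linarith, rfl⟩
    (le_iSup_of_le ⟨by linarith, le_rfl⟩ le_rfl))

lemma log_log_int {L : ℝ} (hL : 1 ≤ L) :
    ∫⁻ x in Icc (Real.exp (-L)) 1, ENNReal.ofReal (((1 + L) ^ 2 / 4) * (x⁻¹ / (1 + L + Real.log x)))
      = ENNReal.ofReal ((1 + L) ^ 2 / 4 * Real.log (1 + L)) := by
  have e1 := Real.exp_pos (-L)
  have e0 : Real.exp (-L) ≤ 1 := by
    rw [Real.exp_le_one_iff]; linarith
  have hpos : ∀ x ∈ Icc (Real.exp (-L)) 1, 0 < x := fun x hx => lt_of_lt_of_le e1 hx.1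
  have hderiv : ∀ x ∈ Set.uIcc (Real.exp (-L)) 1,
      HasDerivAt (fun x => ((1 + L) ^ 2 / 4) * Real.log (1 + L + Real.log x))
        (((1 + L) ^ 2 / 4) * (x⁻¹ / (1 + L + Real.log x))) x := by
    intro x hx
    rw [Set.uIcc_of_le e0] at hx
    have h1 := (Real.hasDerivAt_log (hpos x hx).ne').const_add (1 + L)
    have d := den_pos (L := L) hx.1
    exact (h1.log (by linarith)).const_mul _
  have hcont : ContinuousOn (fun x : ℝ => ((1 + L) ^ 2 / 4) * (x⁻¹ / (1 + L + Real.log x)))
      (Icc (Real.exp (-L)) 1) := by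
    apply ContinuousOn.mul continuousOn_const
    apply ContinuousOn.div
    · exact continuousOn_inv₀.mono fun x hx => (hpos x hx).ne'
    · apply ContinuousOn.add continuousOn_const
      exact Real.continuousOn_log.mono fun x hx => (hpos x hx).ne'
    · intro x hx
      have d := den_pos (L := L) hx.1
      linarith
  have hint := intervalIntegral.integral_eq_sub_of_hasDerivAt hderiv
    (by apply ContinuousOn.intervalIntegrable; rwa [Set.uIcc_of_le e0])
  rw [intervalIntegral.integral_of_le e0, ← integral_Icc_eq_integral_Ioc] at hint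
  rw [← ofReal_integral_eq_lintegral_ofReal hcont.integrableOn_Icc]
  · rw [hint, Real.log_exp, Real.log_one]
    congr 1
    have : (1 + L + -L : ℝ) = 1 := by ring
    rw [this, Real.log_one, add_zero, mul_zero, sub_zero]
  · filter_upwards [ae_restrict_mem measurableSet_Icc] with x hx
    have := hpos x hx
    have d := den_pos (L := L) hx.1
    have : 0 < 1 + L + Real.log x := by linarith
    positivity

lemma maxFn_norm {L : ℝ} (hL : 1 ≤ L) :
    ENNReal.ofReal ((1 + L) ^ 2 / 4 * Real.log (1 + L)) ≤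
      ∫⁻ x, maxFn (fun y => ‖tf L y‖ₑ) x ^ (2 : ℝ) * wg L x := by
  have e1 := Real.exp_pos (-L)
  rw [← log_log_int hL]
  refine le_trans ?_ (setLIntegral_le_lintegral (Icc (Real.exp (-L)) 1) _)
  apply setLIntegral_mono' measurableSet_Icc
  intro x hx
  have hx0 : 0 < x := lt_of_lt_of_le e1 hx.1
  have d := den_pos (L := L) hx.1
  have h1 := maxFn_tf hx.1
  calc ENNReal.ofReal (((1 + L) ^ 2 / 4) * (x⁻¹ / (1 + L + Real.log x)))
      = ENNReal.ofReal ((2 * x)⁻¹) ^ (2 : ℝ) * wg L x := by
        unfold wg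
        rw [abs_of_pos hx0, prof_mid hx.1 hx.2, ENNReal.rpow_two,
          ← ENNReal.ofReal_pow (by positivity), ← ENNReal.ofReal_mul (by positivity)]
        congr 1
        field_simp
        norm_num
    _ ≤ maxFn (fun y => ‖tf L y‖ₑ) x ^ (2 : ℝ) * wg L x := by gcongr

/-- the `A₂` product on the doubled core is large -/
lemma A2_low {L : ℝ} (hL : 1 ≤ L) :
    ENNReal.ofReal ((1 + L) ^ 2 / 8) ≤
      avg (sg L) (Icc (-(2 * Real.exp (-L))) (2 * Real.exp (-L))) *
      avg (wg L) (Icc (-(2 * Real.exp (-L))) (2 * Real.exp (-L))) := by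
  have e1 := Real.exp_pos (-L)
  set δ := Real.exp (-L) with hδ
  have hvol : volume (Icc (-(2 * δ)) (2 * δ)) = ENNReal.ofReal (4 * δ) := by
    rw [Real.volume_Icc]; congr 1; ring
  have h1 : 1 ≤ ∫⁻ x in Icc (-(2 * δ)) (2 * δ), sg L x := by
    rw [← core_int L, ← lintegral_indicator measurableSet_Icc]
    apply lintegral_mono
    intro x
    by_cases h : x ∈ Ioo (-δ) δ
    · have hx : |x| < δ := abs_lt.mpr ⟨h.1, h.2⟩
      rw [indicator_of_mem h, indicator_of_mem (show x ∈ Icc (-(2 * δ)) (2 * δ) from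
        ⟨by linarith [h.1], by linarith [h.2]⟩)]
      unfold sg
      rw [prof_core hx]
    · rw [indicator_of_notMem h]; exact zero_le
  have h2 : ENNReal.ofReal ((1 + L) ^ 2 * δ * (2 * δ)) ≤ ∫⁻ x in Icc (-(2 * δ)) (2 * δ), wg L x := by
    rw [lint_even (fun x => by unfold wg; rw [abs_neg]) (by positivity)]
    have h3 : ENNReal.ofReal ((1 + L) ^ 2 * δ * δ) ≤ ∫⁻ x in Icc 0 (2 * δ), wg L x := by
      calc ENNReal.ofReal ((1 + L) ^ 2 * δ * δ)
          = ∫⁻ x in Icc δ (2 * δ), ENNReal.ofReal ((1 + L) ^ 2 * δ) := by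
            rw [setLIntegral_const, Real.volume_Icc, ← ENNReal.ofReal_mul (by positivity)]
            congr 1; ring
        _ ≤ ∫⁻ x in Icc δ (2 * δ), wg L x := by
            apply setLIntegral_mono' measurableSet_Icc
            intro x hx
            unfold wg
            apply ENNReal.ofReal_le_ofReal
            have hx0 : 0 < x := by linarith [hx.1]
            rw [abs_of_pos hx0]
            refine le_trans ?_ (prof_mono hL hx.1)
            rw [prof_mid le_rfl (by rw [Real.exp_le_one_iff]; linarith), Real.log_exp]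
            have : (1 + L + -L : ℝ) = 1 := by ring
            rw [this, div_one]
        _ ≤ ∫⁻ x in Icc 0 (2 * δ), wg L x :=
            lintegral_mono_set (Icc_subset_Icc e1.le le_rfl)
    calc ENNReal.ofReal ((1 + L) ^ 2 * δ * (2 * δ)) = 2 * ENNReal.ofReal ((1 + L) ^ 2 * δ * δ) := by
          rw [show (2 : ℝ≥0∞) = ENNReal.ofReal 2 by norm_num, ← ENNReal.ofReal_mul (by norm_num)]
          congr 1; ring
      _ ≤ _ := by gcongr
  unfold avg
  rw [hvol, ← ENNReal.ofReal_inv_of_pos (by positivity)]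
  calc ENNReal.ofReal ((1 + L) ^ 2 / 8)
      = ENNReal.ofReal ((4 * δ)⁻¹) * 1 *
        (ENNReal.ofReal ((4 * δ)⁻¹) * ENNReal.ofReal ((1 + L) ^ 2 * δ * (2 * δ))) := by
        rw [mul_one, ← ENNReal.ofReal_mul (by positivity), ← ENNReal.ofReal_mul (by positivity)]
        congr 1
        field_simp
        norm_num
    _ ≤ _ := by gcongr

end Pool.Agent.H414R3.OS
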