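import Pool.Agent.H414R3.OSInt

/-! Averages, the maximal function, and the upper bounds for the counterexample weight. -/

open MeasureTheory Set Filter Topology
open scoped ENNReal NNReal

namespace Pool.Agent.H414R3.OS

/-- The average `⟨f⟩_Q = |Q|⁻¹ ∫_Q f` of a nonnegative function over a set `Q ⊆ ℝ`. -/
noncomputable def avg (f : ℝ → ℝ≥0∞) (Q : Set ℝ) : ℝ≥0∞ := (volume Q)⁻¹ * ∫⁻ y in Q, f y

/-- The cubes of `ℝ¹`: the compact intervals with nonempty interior. -/
def IsCube (Q : Set ℝ) : Prop := ∃ a b : ℝ, a < b ∧ Q = Set.Icc a b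

/-- The Hardy-Littlewood maximal function `x ↦ sup_{Q ∋ x} ⟨f⟩_Q` of `f ≥ 0`. -/
noncomputable def maxFn (f : ℝ → ℝ≥0∞) (x : ℝ) : ℝ≥0∞ :=
  ⨆ (Q : Set ℝ) (_ : IsCube Q) (_ : x ∈ Q), avg f Q

lemma avg_le_of_forall {f : ℝ → ℝ≥0∞} {a b : ℝ} {c : ℝ≥0∞} (hab : a < b)
    (h : ∀ y ∈ Icc a b, f y ≤ c) : avg f (Icc a b) ≤ c := by
  unfold avg
  have h1 : ∫⁻ y in Icc a b, f y ≤ c * volume (Icc a b) := by
    calc ∫⁻ y in Icc a b, f y ≤ ∫⁻ y in Icc a b, c := setLIntegral_mono measurable_const h
      _ = c * volume (Icc a b) := setLIntegral_const _ _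
  have h0 : volume (Icc a b) ≠ 0 := by
    rw [Real.volume_Icc]; simp [hab]
  have ht : volume (Icc a b) ≠ ⊤ := by
    rw [Real.volume_Icc]; exact ENNReal.ofReal_ne_top
  calc (volume (Icc a b))⁻¹ * ∫⁻ y in Icc a b, f y
      ≤ (volume (Icc a b))⁻¹ * (c * volume (Icc a b)) := by gcongr
    _ = c := by
      rw [mul_comm c, ← mul_assoc, ENNReal.inv_mul_cancel h0 ht, one_mul]

lemma maxFn_le_const {f : ℝ → ℝ≥0∞} {c : ℝ≥0∞} (h : ∀ y, f y ≤ c) (x : ℝ) : maxFn f x ≤ c := by
  unfold maxFn
  refine iSup_le fun Q => iSup_le fun hQ => iSup_le fun _ => ?_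
  obtain ⟨a, b, hab, rfl⟩ := hQ
  exact avg_le_of_forall hab fun y _ => h y

lemma maxFn_le_core {L : ℝ} (hL : 1 ≤ L) (E : Set ℝ) (x : ℝ) :
    maxFn (E.indicator (sg L)) x ≤ ENNReal.ofReal ((2 * Real.exp (-L))⁻¹) := by
  apply maxFn_le_const
  intro y
  exact (indicator_le_self _ _ _).trans (sg_le_core hL)

lemma maxFn_le_far {L ρ : ℝ} (hL : 1 ≤ L) (E : Set ℝ) (hE : ∀ y ∈ E, ρ ≤ |y|) (x : ℝ) :
    maxFn (E.indicator (sg L)) x ≤ ENNReal.ofReal ((prof L ρ)⁻¹) := by
  apply maxFn_le_const
  intro y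
  by_cases hy : y ∈ E
  · rw [indicator_of_mem hy]
    unfold sg
    exact ENNReal.ofReal_le_ofReal (inv_anti₀ (prof_pos hL) (prof_mono hL (hE y hy)))
  · rw [indicator_of_notMem hy]; exact zero_le

lemma maxFn_le_pt {L : ℝ} (hL : 1 ≤ L) (E : Set ℝ) {x : ℝ} (hx : x ≠ 0) :
    maxFn (E.indicator (sg L)) x ≤
      sg L (x / 2) + ENNReal.ofReal ((1 + L)⁻¹) + ENNReal.ofReal (4 / |x|) := by
  have hxp : 0 < |x| := abs_pos.mpr hx
  unfold maxFn
  refine iSup_le fun Q => iSup_le fun hQ => iSup_le fun hxQ => ?_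
  obtain ⟨a, b, hab, rfl⟩ := hQ
  by_cases hc : ∀ y ∈ Icc a b, |x| / 2 ≤ |y|
  · refine (avg_le_of_forall hab (c := sg L (x / 2)) fun y hy => ?_).trans ?_
    · refine (indicator_le_self _ _ _).trans (sg_anti hL ?_)
      rw [abs_div, abs_two]
      exact hc y hy
    · rw [add_assoc]; exact le_self_add
  · push Not at hc
    obtain ⟨y, hy, hylt⟩ := hc
    have hlen : |x| / 2 ≤ b - a := by
      have h1 : |x - y| ≤ b - a := by
        rw [abs_le]; constructor <;> linarith [hy.1, hy.2, hxQ.1, hxQ.2]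
      have h2 : |x| - |y| ≤ |x - y| := abs_sub_abs_le_abs_sub x y
      linarith
    have hba : 0 < b - a := by linarith
    unfold avg
    have h1 : ∫⁻ z in Icc a b, E.indicator (sg L) z
        ≤ 2 + ENNReal.ofReal ((1 + L)⁻¹) * volume (Icc a b) := by
      calc ∫⁻ z in Icc a b, E.indicator (sg L) z
          ≤ ∫⁻ z in Icc a b, ((Icc (-1 : ℝ) 1).indicator (sg L) z + ENNReal.ofReal ((1 + L)⁻¹)) :=
            lintegral_mono fun z => (indicator_le_self _ _ _).trans (sg_split hL z)
        _ = (∫⁻ z in Icc a b, (Icc (-1 : ℝ) 1).indicator (sg L) z)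
            + ENNReal.ofReal ((1 + L)⁻¹) * volume (Icc a b) := by
            rw [lintegral_add_right _ measurable_const, setLIntegral_const]
        _ ≤ 2 + ENNReal.ofReal ((1 + L)⁻¹) * volume (Icc a b) := by
            gcongr
            exact (setLIntegral_le_lintegral _ _).trans (mass11 hL)
    have h0 : volume (Icc a b) ≠ 0 := by
      rw [Real.volume_Icc]; simp [hab]
    have ht : volume (Icc a b) ≠ ⊤ := by
      rw [Real.volume_Icc]; exact ENNReal.ofReal_ne_top
    calc (volume (Icc a b))⁻¹ * ∫⁻ z in Icc a b, E.indicator (sg L) z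
        ≤ (volume (Icc a b))⁻¹ * (2 + ENNReal.ofReal ((1 + L)⁻¹) * volume (Icc a b)) := by gcongr
      _ = (volume (Icc a b))⁻¹ * 2 + ENNReal.ofReal ((1 + L)⁻¹) := by
          rw [mul_add, mul_comm (ENNReal.ofReal ((1 + L)⁻¹)), ← mul_assoc,
            ENNReal.inv_mul_cancel h0 ht, one_mul]
      _ ≤ ENNReal.ofReal (4 / |x|) + ENNReal.ofReal ((1 + L)⁻¹) := by
          gcongr
          rw [Real.volume_Icc, ← ENNReal.ofReal_inv_of_pos hba,
            show (2 : ℝ≥0∞) = ENNReal.ofReal 2 by norm_num, ← ENNReal.ofReal_mul (by positivity)]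
          apply ENNReal.ofReal_le_ofReal
          rw [inv_mul_eq_div, div_le_div_iff₀ hba hxp]
          linarith
      _ ≤ sg L (x / 2) + ENNReal.ofReal ((1 + L)⁻¹) + ENNReal.ofReal (4 / |x|) := by
          rw [add_comm (ENNReal.ofReal (4 / |x|)), add_assoc]
          exact le_add_self

/-- the majorant of the localized maximal function -/
noncomputable def Bf (L x : ℝ) : ℝ≥0∞ :=
  (Iio (2 * Real.exp (-L))).indicator (fun _ => ENNReal.ofReal ((2 * Real.exp (-L))⁻¹)) |x|
    + ENNReal.ofReal ((1 + L)⁻¹) + 2 * sg L x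
    + (Ici (Real.exp (-L))).indicator (fun t => ENNReal.ofReal (4 / t)) |x|

lemma sg_le_Bf {L : ℝ} (x : ℝ) : sg L x ≤ Bf L x := by
  unfold Bf
  calc sg L x ≤ 2 * sg L x := by rw [two_mul]; exact le_self_add
    _ ≤ _ := (le_add_self.trans le_self_add)

lemma maxFn_le_Bf {L : ℝ} (hL : 1 ≤ L) (E : Set ℝ) (x : ℝ) :
    maxFn (E.indicator (sg L)) x ≤ Bf L x := by
  have e1 := Real.exp_pos (-L)
  unfold Bf
  by_cases h : |x| < 2 * Real.exp (-L)
  · rw [indicator_of_mem (show |x| ∈ Iio (2 * Real.exp (-L)) from h)]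
    refine (maxFn_le_core hL E x).trans ?_
    rw [add_assoc, add_assoc]
    exact le_self_add
  · push Not at h
    rw [indicator_of_notMem (show |x| ∉ Iio (2 * Real.exp (-L)) from not_lt.mpr h),
      indicator_of_mem (show |x| ∈ Ici (Real.exp (-L)) from by simp only [mem_Ici]; linarith), zero_add]
    have hx : x ≠ 0 := by
      intro h0; rw [h0, abs_zero] at h; linarith
    refine (maxFn_le_pt hL E hx).trans ?_
    gcongr ?_ + _
    rw [add_comm]
    gcongr
    unfold sg
    rw [show (2 : ℝ≥0∞) = ENNReal.ofReal 2 by norm_num, ← ENNReal.ofReal_mul (by norm_num)]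
    apply ENNReal.ofReal_le_ofReal
    rw [abs_div, abs_two]
    have h1 := prof_half' (r := |x|) hL (by linarith)
    have p1 := prof_pos (r := |x|) hL
    have p2 := prof_pos (r := |x| / 2) hL
    rw [← div_eq_mul_inv, inv_eq_one_div, div_le_div_iff₀ p2 p1]
    linarith

lemma Bf_even (L x : ℝ) : Bf L (-x) = Bf L x := by
  unfold Bf; rw [abs_neg, sg_neg]

lemma int_Bf {L r : ℝ} (hL : 1 ≤ L) (hr : Real.exp (-L) ≤ r) :
    ∫⁻ x in Icc 0 r, Bf L x ≤
      ENNReal.ofReal (3 + 3 * (r / (1 + L)) + 4 * (L + Real.log r)) := by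
  have e1 := Real.exp_pos (-L)
  have hr0 : 0 < r := by linarith
  have dd := den_pos hr
  have m1 : Measurable fun x : ℝ => (Iio (2 * Real.exp (-L))).indicator
      (fun _ => ENNReal.ofReal ((2 * Real.exp (-L))⁻¹)) |x| :=
    (measurable_const.indicator measurableSet_Iio).comp measurable_norm
  have m2 : Measurable fun x : ℝ => 2 * sg L x := (measurable_sg L).const_mul 2
  have m3 : Measurable fun x : ℝ => (Ici (Real.exp (-L))).indicator
      (fun t => ENNReal.ofReal (4 / t)) |x| := by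
    refine Measurable.comp (g := (Ici (Real.exp (-L))).indicator
      (fun t => ENNReal.ofReal (4 / t))) ?_ measurable_norm
    exact ((measurable_const.div measurable_id).ennreal_ofReal).indicator measurableSet_Ici
  have i1 : ∫⁻ x in Icc 0 r, (Iio (2 * Real.exp (-L))).indicator
      (fun _ => ENNReal.ofReal ((2 * Real.exp (-L))⁻¹)) |x| ≤ 1 := by
    rw [← lintegral_indicator measurableSet_Icc]
    have : ∀ x : ℝ, (Icc 0 r).indicator (fun x => (Iio (2 * Real.exp (-L))).indicator
        (fun _ => ENNReal.ofReal ((2 * Real.exp (-L))⁻¹)) |x|) x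
        ≤ (Icc 0 (2 * Real.exp (-L))).indicator (fun _ => ENNReal.ofReal ((2 * Real.exp (-L))⁻¹)) x := by
      intro x
      by_cases h : x ∈ Icc 0 r
      · rw [indicator_of_mem h]
        by_cases h2 : |x| ∈ Iio (2 * Real.exp (-L))
        · rw [indicator_of_mem h2, indicator_of_mem (show x ∈ Icc 0 (2 * Real.exp (-L)) from
            ⟨h.1, (le_abs_self x).trans (le_of_lt h2)⟩)]
        · rw [indicator_of_notMem h2]; exact zero_le
      · rw [indicator_of_notMem h]; exact zero_le
    refine (lintegral_mono this).trans ?_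
    rw [lintegral_indicator measurableSet_Icc, setLIntegral_const, Real.volume_Icc,
      ← ENNReal.ofReal_mul (by positivity), sub_zero, inv_mul_cancel₀ (by positivity)]
    simp
  have i2 : ∫⁻ x in Icc 0 r, ENNReal.ofReal ((1 + L)⁻¹) = ENNReal.ofReal (r / (1 + L)) := by
    rw [setLIntegral_const, Real.volume_Icc, ← ENNReal.ofReal_mul (by positivity), sub_zero,
      inv_mul_eq_div]
  have i3 : ∫⁻ x in Icc 0 r, 2 * sg L x ≤ 2 * (1 + ENNReal.ofReal (r / (1 + L))) := by
    rw [lintegral_const_mul _ (measurable_sg L)]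
    gcongr
    exact mass0r hL
  have i4 : ∫⁻ x in Icc 0 r, (Ici (Real.exp (-L))).indicator
      (fun t => ENNReal.ofReal (4 / t)) |x| ≤ ENNReal.ofReal (4 * (L + Real.log r)) := by
    rw [← log_int hr, ← lintegral_indicator measurableSet_Icc, ← lintegral_indicator measurableSet_Icc]
    apply lintegral_mono
    intro x
    by_cases h : x ∈ Icc 0 r
    · rw [indicator_of_mem h, abs_of_nonneg h.1]
      by_cases h2 : x ∈ Ici (Real.exp (-L))
      · rw [indicator_of_mem h2, indicator_of_mem (show x ∈ Icc (Real.exp (-L)) r from ⟨h2, h.2⟩)]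
      · rw [indicator_of_notMem h2]; exact zero_le
    · rw [indicator_of_notMem h]; exact zero_le
  have hsum : ∫⁻ x in Icc 0 r, Bf L x =
      (∫⁻ x in Icc 0 r, (Iio (2 * Real.exp (-L))).indicator
      (fun _ => ENNReal.ofReal ((2 * Real.exp (-L))⁻¹)) |x|) + (∫⁻ x in Icc 0 r, ENNReal.ofReal ((1 + L)⁻¹))
      + (∫⁻ x in Icc 0 r, 2 * sg L x) + ∫⁻ x in Icc 0 r, (Ici (Real.exp (-L))).indicator
      (fun t => ENNReal.ofReal (4 / t)) |x| := by
    unfold Bf
    have m12 : Measurable fun x : ℝ => (Iio (2 * Real.exp (-L))).indicator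
      (fun _ => ENNReal.ofReal ((2 * Real.exp (-L))⁻¹)) |x| + ENNReal.ofReal ((1 + L)⁻¹) :=
      m1.add measurable_const
    have m123 : Measurable fun x : ℝ => (Iio (2 * Real.exp (-L))).indicator
      (fun _ => ENNReal.ofReal ((2 * Real.exp (-L))⁻¹)) |x| + ENNReal.ofReal ((1 + L)⁻¹)
      + 2 * sg L x := m12.add m2
    rw [lintegral_add_left m123, lintegral_add_left m12, lintegral_add_left m1]
  rw [hsum]
  calc _ ≤ 1 + ENNReal.ofReal (r / (1 + L)) + 2 * (1 + ENNReal.ofReal (r / (1 + L)))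
        + ENNReal.ofReal (4 * (L + Real.log r)) := by
        rw [i2]; gcongr
    _ = ENNReal.ofReal (3 + 3 * (r / (1 + L)) + 4 * (L + Real.log r)) := by
        have hq : 0 ≤ r / (1 + L) := by positivity
        rw [show (2 : ℝ≥0∞) = ENNReal.ofReal 2 by norm_num,
          show (1 : ℝ≥0∞) = ENNReal.ofReal 1 by norm_num,
          ← ENNReal.ofReal_add (by norm_num) hq, ← ENNReal.ofReal_mul (by norm_num),
          ← ENNReal.ofReal_add (by positivity) (by positivity),
          ← ENNReal.ofReal_add (by positivity) (by linarith)]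
        congr 1
        ring

lemma real_bound {L r : ℝ} (hL : 1 ≤ L) (hr : Real.exp (-L) ≤ r) :
    prof L r * ((2 / r) * (2 * (3 + 3 * (r / (1 + L)) + 4 * (L + Real.log r)))) ≤ 40 * (1 + L) ^ 2 := by
  have e1 := Real.exp_pos (-L)
  have hr0 : 0 < r := by linarith
  have dd := den_pos hr
  have hK : (4 : ℝ) ≤ (1 + L) ^ 2 := by nlinarith
  by_cases h1 : r ≤ 1
  · rw [prof_mid hr h1]
    have hD : 0 < 1 + L + Real.log r := by linarith
    have e : (1 + L) ^ 2 * r / (1 + L + Real.log r) *
        ((2 / r) * (2 * (3 + 3 * (r / (1 + L)) + 4 * (L + Real.log r))))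
        = (4 * (1 + L) ^ 2) * ((3 + 3 * (r / (1 + L)) + 4 * (L + Real.log r)) / (1 + L + Real.log r)) := by
      field_simp
      ring
    rw [e]
    have h3 : (3 + 3 * (r / (1 + L)) + 4 * (L + Real.log r)) / (1 + L + Real.log r) ≤ 10 := by
      rw [div_le_iff₀ hD]
      have : r / (1 + L) ≤ 1 := by
        rw [div_le_one (by linarith)]; linarith
      linarith
    nlinarith
  · push Not at h1
    rw [prof_out (by linarith) h1.le]
    have hlog : Real.log r ≤ r := (Real.log_le_sub_one_of_pos hr0).trans (by linarith)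
    have e : (1 + L) * ((2 / r) * (2 * (3 + 3 * (r / (1 + L)) + 4 * (L + Real.log r))))
        = 12 + 4 * (1 + L) * ((3 + 4 * L + 4 * Real.log r) / r) := by
      have : (1 + L) ≠ 0 := by linarith
      field_simp
      ring
    rw [e]
    have h3 : (3 + 4 * L + 4 * Real.log r) / r ≤ 7 * (1 + L) := by
      rw [div_le_iff₀ hr0]
      nlinarith
    nlinarith

/-- The master product bound. -/
lemma prod_bound {L a b : ℝ} (hL : 1 ≤ L) (hab : a < b) {G : ℝ → ℝ≥0∞}
    (h1 : ∀ x, G x ≤ ENNReal.ofReal ((2 * Real.exp (-L))⁻¹)) (h2 : ∀ x, G x ≤ Bf L x)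
    (h3 : ∀ ρ, (∀ y ∈ Icc a b, ρ ≤ |y|) → ∀ x ∈ Icc a b, G x ≤ ENNReal.ofReal ((prof L ρ)⁻¹)) :
    avg (wg L) (Icc a b) * avg G (Icc a b) ≤ ENNReal.ofReal (40 * (1 + L) ^ 2) := by
  have e1 := Real.exp_pos (-L)
  have hK : (4 : ℝ) ≤ (1 + L) ^ 2 := by nlinarith
  set r := max |a| |b| with hrdef
  have hle : ∀ y ∈ Icc a b, |y| ≤ r := by
    intro y hy
    rw [abs_le]
    constructor
    · have : -|a| ≤ a := neg_abs_le a
      have := le_max_left |a| |b|
      linarith [hy.1]
    · have : b ≤ |b| := le_abs_self b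
      have := le_max_right |a| |b|
      linarith [hy.2]
  have hr0 : 0 < r := by
    rcases lt_or_ge a 0 with h | h
    · exact lt_of_lt_of_le (abs_pos.mpr h.ne) (le_max_left _ _)
    · exact lt_of_lt_of_le (abs_pos.mpr (by linarith : (0:ℝ) < b).ne') (le_max_right _ _)
  have hw : avg (wg L) (Icc a b) ≤ ENNReal.ofReal (prof L r) := by
    apply avg_le_of_forall hab
    intro y hy
    unfold wg
    exact ENNReal.ofReal_le_ofReal (prof_mono hL (hle y hy))
  by_cases hc : b - a < r / 2
  · have hfar : ∀ y ∈ Icc a b, r / 2 ≤ |y| := by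
      intro y hy
      rcases le_total |a| |b| with h | h
      · have hr : r = |b| := max_eq_right h
        have h4 : |b| - |y| ≤ |b - y| := abs_sub_abs_le_abs_sub b y
        have h5 : |b - y| ≤ b - a := by
          rw [abs_le]; constructor <;> linarith [hy.1, hy.2]
        linarith
      · have hr : r = |a| := max_eq_left h
        have h4 : |a| - |y| ≤ |a - y| := abs_sub_abs_le_abs_sub a y
        have h5 : |a - y| ≤ b - a := by
          rw [abs_le]; constructor <;> linarith [hy.1, hy.2]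
        linarith
    have hG : avg G (Icc a b) ≤ ENNReal.ofReal ((prof L (r / 2))⁻¹) :=
      avg_le_of_forall hab (h3 _ hfar)
    have p2 := prof_pos (r := r / 2) hL
    calc avg (wg L) (Icc a b) * avg G (Icc a b)
        ≤ ENNReal.ofReal (prof L r) * ENNReal.ofReal ((prof L (r / 2))⁻¹) := by gcongr
      _ = ENNReal.ofReal (prof L r * (prof L (r / 2))⁻¹) :=
          (ENNReal.ofReal_mul (prof_pos hL).le).symm
      _ ≤ ENNReal.ofReal (40 * (1 + L) ^ 2) := by
          apply ENNReal.ofReal_le_ofReal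
          rw [← div_eq_mul_inv, div_le_iff₀ p2]
          have := prof_half (r := r) hL
          nlinarith [mul_pos (by linarith : (0:ℝ) < (1 + L) ^ 2) p2]
  · push Not at hc
    by_cases hr : r < Real.exp (-L)
    · have hG : avg G (Icc a b) ≤ ENNReal.ofReal ((2 * Real.exp (-L))⁻¹) :=
        avg_le_of_forall hab fun y _ => h1 y
      rw [prof_core hr] at hw
      calc avg (wg L) (Icc a b) * avg G (Icc a b)
          ≤ ENNReal.ofReal (2 * Real.exp (-L)) * ENNReal.ofReal ((2 * Real.exp (-L))⁻¹) := by gcongr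
        _ = ENNReal.ofReal (2 * Real.exp (-L) * (2 * Real.exp (-L))⁻¹) :=
            (ENNReal.ofReal_mul (by positivity)).symm
        _ ≤ ENNReal.ofReal (40 * (1 + L) ^ 2) := by
            apply ENNReal.ofReal_le_ofReal
            rw [mul_inv_cancel₀ (by positivity)]
            linarith
    · push Not at hr
      have dd := den_pos hr
      have hT : 0 ≤ 3 + 3 * (r / (1 + L)) + 4 * (L + Real.log r) := by
        have : 0 ≤ r / (1 + L) := by positivity
        linarith
      have hG : avg G (Icc a b) ≤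
          ENNReal.ofReal ((2 / r) * (2 * (3 + 3 * (r / (1 + L)) + 4 * (L + Real.log r)))) := by
        unfold avg
        have hsub : Icc a b ⊆ Icc (-r) r := by
          intro y hy
          exact abs_le.mp (hle y hy)
        calc (volume (Icc a b))⁻¹ * ∫⁻ y in Icc a b, G y
            ≤ ENNReal.ofReal (2 / r) * ∫⁻ y in Icc (-r) r, Bf L y := by
              apply mul_le_mul'
              · rw [Real.volume_Icc, ← ENNReal.ofReal_inv_of_pos (by linarith)]
                apply ENNReal.ofReal_le_ofReal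
                rw [inv_eq_one_div, div_le_div_iff₀ (by linarith) hr0]
                linarith
              · exact (lintegral_mono fun y => h2 y).trans (lintegral_mono_set hsub)
          _ = ENNReal.ofReal (2 / r) * (2 * ∫⁻ y in Icc 0 r, Bf L y) := by
              rw [lint_even (Bf_even L) hr0.le]
          _ ≤ ENNReal.ofReal (2 / r) *
                (2 * ENNReal.ofReal (3 + 3 * (r / (1 + L)) + 4 * (L + Real.log r))) := by
              gcongr
              exact int_Bf hL hr
          _ = _ := by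
              rw [show (2 : ℝ≥0∞) = ENNReal.ofReal 2 by norm_num,
                ← ENNReal.ofReal_mul (by norm_num), ← ENNReal.ofReal_mul (by positivity)]
      calc avg (wg L) (Icc a b) * avg G (Icc a b)
          ≤ ENNReal.ofReal (prof L r) *
            ENNReal.ofReal ((2 / r) * (2 * (3 + 3 * (r / (1 + L)) + 4 * (L + Real.log r)))) := by gcongr
        _ = ENNReal.ofReal (prof L r *
            ((2 / r) * (2 * (3 + 3 * (r / (1 + L)) + 4 * (L + Real.log r))))) :=
            (ENNReal.ofReal_mul (prof_pos hL).le).symm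
        _ ≤ ENNReal.ofReal (40 * (1 + L) ^ 2) :=
            ENNReal.ofReal_le_ofReal (real_bound hL hr)

end Pool.Agent.H414R3.OS
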