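import Mathlib

/-! Profile function of the counterexample weight and its elementary properties. -/

open MeasureTheory Set Filter Topology
open scoped ENNReal NNReal

namespace Pool.Agent.H414R3.OS

/-- the profile: constant on the core, `(1+L)^2 r/(1+L+log r)` up to `1`, constant afterwards -/
noncomputable def prof (L r : ℝ) : ℝ :=
  if r < Real.exp (-L) then 2 * Real.exp (-L)
  else if r ≤ 1 then (1 + L) ^ 2 * r / (1 + L + Real.log r) else 1 + L

lemma den_pos {L r : ℝ} (h : Real.exp (-L) ≤ r) : 1 ≤ 1 + L + Real.log r := by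
  have : -L ≤ Real.log r := by
    rw [← Real.log_exp (-L)]
    exact Real.log_le_log (Real.exp_pos _) h
  linarith

lemma prof_core {L r : ℝ} (h : r < Real.exp (-L)) : prof L r = 2 * Real.exp (-L) := by
  simp [prof, h]

lemma prof_mid {L r : ℝ} (h : Real.exp (-L) ≤ r) (h1 : r ≤ 1) :
    prof L r = (1 + L) ^ 2 * r / (1 + L + Real.log r) := by
  simp [prof, not_lt.mpr h, h1]

lemma prof_out {L r : ℝ} (hL : 0 ≤ L) (h1 : 1 ≤ r) : prof L r = 1 + L := by
  have h0 : Real.exp (-L) ≤ 1 := by
    rw [Real.exp_le_one_iff]; linarith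
  have h2 : ¬ r < Real.exp (-L) := by linarith
  rcases eq_or_lt_of_le h1 with h | h
  · subst h
    rw [prof_mid h0 le_rfl]
    rw [Real.log_one]
    have : (1 + L) ≠ 0 := by linarith
    field_simp
    ring
  · simp [prof, h2, not_le.mpr h]

lemma measurable_prof (L : ℝ) : Measurable (prof L) := by
  unfold prof
  refine Measurable.ite measurableSet_Iio measurable_const ?_
  refine Measurable.ite measurableSet_Iic ?_ measurable_const
  exact (measurable_const.mul measurable_id).div (measurable_const.add Real.measurable_log)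

lemma mid_mono {L r s : ℝ} (h : Real.exp (-L) ≤ r) (hrs : r ≤ s) :
    (1 + L) ^ 2 * r / (1 + L + Real.log r) ≤ (1 + L) ^ 2 * s / (1 + L + Real.log s) := by
  have hr : 0 < r := lt_of_lt_of_le (Real.exp_pos _) h
  have hs : 0 < s := lt_of_lt_of_le hr hrs
  have d1 := den_pos h
  have d2 := den_pos (h.trans hrs)
  rw [div_le_div_iff₀ (by linarith) (by linarith)]
  have key : r * (1 + L + Real.log s) ≤ s * (1 + L + Real.log r) := by
    have hl : Real.log s - Real.log r ≤ (s - r) / r := by
      rw [← Real.log_div hs.ne' hr.ne']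
      have := Real.log_le_sub_one_of_pos (div_pos hs hr)
      have e : (s - r) / r = s / r - 1 := by field_simp
      rw [e]; exact this
    have hl2 : r * (Real.log s - Real.log r) ≤ s - r := by
      calc r * (Real.log s - Real.log r) ≤ r * ((s - r) / r) :=
            mul_le_mul_of_nonneg_left hl hr.le
        _ = s - r := by field_simp
    have hl3 : s - r ≤ (s - r) * (1 + L + Real.log r) := by
      have : 0 ≤ s - r := by linarith
      nlinarith
    nlinarith
  have h4 : 0 ≤ (1 + L) ^ 2 := sq_nonneg _
  nlinarith [mul_le_mul_of_nonneg_left key h4]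

lemma prof_ge {L r : ℝ} (hL : 1 ≤ L) : 2 * Real.exp (-L) ≤ prof L r := by
  by_cases h : r < Real.exp (-L)
  · rw [prof_core h]
  · push Not at h
    have e0 : Real.exp (-L) ≤ 1 := by
      rw [Real.exp_le_one_iff]; linarith
    have e1 := Real.exp_pos (-L)
    have h1 : 2 * Real.exp (-L) ≤ (1 + L) ^ 2 * Real.exp (-L) / (1 + L + Real.log (Real.exp (-L))) := by
      rw [Real.log_exp]
      have : 1 + L + -L = 1 := by ring
      rw [this, div_one]
      have : (2 : ℝ) ≤ (1 + L) ^ 2 := by nlinarith
      nlinarith
    by_cases h2 : r ≤ 1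
    · rw [prof_mid h h2]
      exact h1.trans (mid_mono le_rfl h)
    · push Not at h2
      rw [prof_out (by linarith) h2.le]
      have h3 : 2 * Real.exp (-L) ≤ 2 := by linarith
      linarith

lemma prof_pos {L r : ℝ} (hL : 1 ≤ L) : 0 < prof L r :=
  lt_of_lt_of_le (by positivity) (prof_ge hL)

lemma prof_mono {L : ℝ} (hL : 1 ≤ L) : Monotone (prof L) := by
  intro r s hrs
  by_cases h : r < Real.exp (-L)
  · rw [prof_core h]; exact prof_ge hL
  · push Not at h
    by_cases h2 : s ≤ 1
    · rw [prof_mid h (hrs.trans h2), prof_mid (h.trans hrs) h2]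
      exact mid_mono h hrs
    · push Not at h2
      rw [prof_out (by linarith) h2.le]
      by_cases h3 : r ≤ 1
      · rw [prof_mid h h3]
        refine (mid_mono h h3).trans ?_
        rw [Real.log_one]
        have : (1 + L) ≠ 0 := by linarith
        apply le_of_eq
        field_simp
        ring
      · push Not at h3
        rw [prof_out (by linarith) h3.le]

lemma prof_le {L r : ℝ} (hL : 1 ≤ L) : prof L r ≤ 1 + L := by
  have := prof_mono hL (le_max_left r 1)
  rwa [prof_out (by linarith) (le_max_right r 1)] at this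

lemma prof_le_mul {L r : ℝ} (hL : 1 ≤ L) (h : Real.exp (-L) ≤ r) :
    prof L r ≤ (1 + L) ^ 2 * r := by
  have hr : 0 < r := lt_of_lt_of_le (Real.exp_pos _) h
  by_cases h2 : r ≤ 1
  · rw [prof_mid h h2]
    exact div_le_self (by positivity) (den_pos h)
  · push Not at h2
    rw [prof_out (by linarith) h2.le]
    nlinarith

/-- doubling away from the core -/
lemma prof_half' {L r : ℝ} (hL : 1 ≤ L) (h : Real.exp (-L) ≤ r / 2) :
    prof L r ≤ 2 * prof L (r / 2) := by
  have hr : 0 < r := by have := Real.exp_pos (-L); linarith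
  have d1 := den_pos h
  by_cases h1 : r / 2 ≤ 1
  · rw [prof_mid h h1]
    by_cases h2 : r ≤ 1
    · rw [prof_mid (by linarith) h2]
      have : Real.log (r / 2) ≤ Real.log r := Real.log_le_log (by linarith) (by linarith)
      have e : 2 * ((1 + L) ^ 2 * (r / 2) / (1 + L + Real.log (r / 2)))
        = (1 + L) ^ 2 * r / (1 + L + Real.log (r / 2)) := by ring
      rw [e]
      exact div_le_div_of_nonneg_left (by positivity) (by linarith) (by linarith)
    · push Not at h2
      rw [prof_out (by linarith) h2.le]
      have h3 : Real.log (r / 2) ≤ 0 := Real.log_nonpos (by linarith) h1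
      have e : 2 * ((1 + L) ^ 2 * (r / 2) / (1 + L + Real.log (r / 2)))
        = (1 + L) ^ 2 * r / (1 + L + Real.log (r / 2)) := by ring
      rw [e, le_div_iff₀ (by linarith)]
      have : (1 + L) * (1 + L + Real.log (r / 2)) ≤ (1 + L) * (1 + L) := by
        apply mul_le_mul_of_nonneg_left _ (by linarith)
        linarith
      nlinarith
  · push Not at h1
    rw [prof_out (by linarith) h1.le]
    have := prof_le (r := r) hL
    linarith

/-- general comparison with the half radius -/
lemma prof_half {L r : ℝ} (hL : 1 ≤ L) : prof L r ≤ (1 + L) ^ 2 * prof L (r / 2) := by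
  have hK : (4 : ℝ) ≤ (1 + L) ^ 2 := by nlinarith
  have e1 := Real.exp_pos (-L)
  by_cases h : Real.exp (-L) ≤ r / 2
  · have := prof_half' hL h
    have h2 := prof_pos (r := r / 2) hL
    nlinarith
  · push Not at h
    rw [prof_core h]
    by_cases h2 : r < Real.exp (-L)
    · rw [prof_core h2]; nlinarith
    · push Not at h2
      have := prof_le_mul hL h2
      nlinarith

end Pool.Agent.H414R3.OS
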