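import Pool.Agent.Helper569.Spec

set_option autoImplicit false
open MeasureTheory Set
open scoped ComplexConjugate ENNReal

namespace Pool.Agent.H414R3

open Pool.Agent.Helper569.Spec

theorem int_sq_hat {d : ℕ} (Ω : Set (E d)) (hm : MeasurableSet Ω) (hb : Bornology.IsBounded Ω) :
    Integrable (fun u : E d => ‖hat Ω u‖ ^ 2) ∧ ∫ u : E d, ‖hat Ω u‖ ^ 2 = volume.real Ω := by
  have h := planch (d := d) (fun _ => (1 : ℂ)) measurable_const Ω hm hb 1 (fun x => by simp)
  simp only [one_mul] at h
  refine ⟨h.1, ?_⟩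
  have h2 := h.2
  unfold hat
  rw [h2]
  simp

theorem hat_zero {d : ℕ} (Ω : Set (E d)) : hat Ω 0 = (volume.real Ω : ℂ) := by
  unfold hat
  have : ∀ x : E d, conj (ee 0 x) = 1 := by
    intro x
    unfold ee
    simp
  simp_rw [this]
  simp

theorem countable_spectrum {d : ℕ} (Ω Λ : Set (E d)) (hm : MeasurableSet Ω)
    (hb : Bornology.IsBounded Ω) (h0 : 0 < volume Ω) (hs : IsSpectrum Ω Λ) : Countable Λ := by
  have hv : 0 < volume.real Ω := ENNReal.toReal_pos h0.ne' hb.measure_lt_top.ne
  have hcont : Continuous (fun u : E d => ‖hat Ω u‖ ^ 2) := (hat_cont Ω hm hb).norm.pow 2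
  have hpos : 0 < ‖hat Ω 0‖ ^ 2 := by
    rw [hat_zero]
    rw [Complex.norm_real, Real.norm_eq_abs, abs_of_pos hv]
    positivity
  obtain ⟨δ, hδ, hball⟩ := Metric.eventually_nhds_iff.1 (hcont.continuousAt.eventually_ne hpos.ne')
  have hc : ∀ n : ℕ, (Function.support (fun l : Λ =>
      ‖hat Ω ((l : E d) - TopologicalSpace.denseSeq (E d) n)‖ ^ 2)).Countable := by
    intro n
    exact (parseval Ω Λ hm hb h0 hs Ω hm (subset_refl Ω) _).summable.countable_support
  have hcover : (Set.univ : Set Λ) ⊆ ⋃ n : ℕ, Function.support (fun l : Λ =>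
      ‖hat Ω ((l : E d) - TopologicalSpace.denseSeq (E d) n)‖ ^ 2) := by
    intro l _
    obtain ⟨n, hn⟩ := (TopologicalSpace.denseRange_denseSeq (E d)).exists_dist_lt (l : E d) hδ
    rw [mem_iUnion]
    refine ⟨n, ?_⟩
    rw [Function.mem_support]
    apply hball
    rw [dist_zero_right, ← dist_eq_norm]
    exact hn
  have := (countable_iUnion hc).mono hcover
  exact Set.countable_univ_iff.1 this

theorem window_bound {d : ℕ} (Ω Λ : Set (E d)) (hm : MeasurableSet Ω)
    (hb : Bornology.IsBounded Ω) (h0 : 0 < volume Ω) (hs : IsSpectrum Ω Λ)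
    (W : Set (E d)) (hW : MeasurableSet W) (N : ℕ)
    (hN : ∀ y : E d, ∀ F : Finset (E d), (∀ l ∈ F, l ∈ Λ ∧ l - y ∈ W) → F.card ≤ N) :
    volume W * volume Ω ≤ N := by
  classical
  have hv : 0 < volume.real Ω := ENNReal.toReal_pos h0.ne' hb.measure_lt_top.ne
  have hcΛ : Countable Λ := countable_spectrum Ω Λ hm hb h0 hs
  have hcont : Continuous (fun u : E d => ‖hat Ω u‖ ^ 2) := (hat_cont Ω hm hb).norm.pow 2
  obtain ⟨hint, hval⟩ := int_sq_hat Ω hm hb
  set Fe : E d → ℝ≥0∞ := fun u => ENNReal.ofReal (‖hat Ω u‖ ^ 2) with hFe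
  have hFem : Measurable Fe := ENNReal.measurable_ofReal.comp hcont.measurable
  have hA : ∀ ξ : E d, ∑' l : Λ, Fe ((l : E d) - ξ) =
      ENNReal.ofReal (volume.real Ω * volume.real Ω) := by
    intro ξ
    have hp := parseval Ω Λ hm hb h0 hs Ω hm (subset_refl Ω) ξ
    rw [← hp.tsum_eq, ENNReal.ofReal_tsum_of_nonneg (fun l => by positivity) hp.summable]
  have hB : ∫⁻ ξ in W, ∑' l : Λ, Fe ((l : E d) - ξ) =
      ENNReal.ofReal (volume.real Ω * volume.real Ω) * volume W := by
    simp_rw [hA]
    rw [setLIntegral_const]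
  have hC : ∫⁻ ξ in W, ∑' l : Λ, Fe ((l : E d) - ξ) ≤ N * ENNReal.ofReal (volume.real Ω) := by
    have hmeas : ∀ l : Λ, AEMeasurable (fun ξ : E d => Fe ((l : E d) - ξ))
        (volume.restrict W) := by
      intro l
      exact (hFem.comp (by fun_prop : Measurable (fun ξ : E d => (l : E d) - ξ))).aemeasurable
    rw [lintegral_tsum hmeas]
    have h1 : ∀ l : Λ, ∫⁻ ξ in W, Fe ((l : E d) - ξ) =
        ∫⁻ y, W.indicator (fun _ => (1 : ℝ≥0∞)) ((l : E d) - y) * Fe y := by
      intro l
      rw [← lintegral_sub_left_eq_self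
        (fun y => W.indicator (fun _ => (1 : ℝ≥0∞)) ((l : E d) - y) * Fe y) (l : E d)]
      rw [← lintegral_indicator hW]
      apply lintegral_congr
      intro x
      rw [sub_sub_cancel]
      by_cases hx : x ∈ W
      · rw [indicator_of_mem hx, indicator_of_mem hx, one_mul]
      · rw [indicator_of_notMem hx, indicator_of_notMem hx, zero_mul]
    simp_rw [h1]
    rw [← lintegral_tsum]
    · have h2 : ∀ y : E d, ∑' l : Λ, W.indicator (fun _ => (1 : ℝ≥0∞)) ((l : E d) - y) * Fe y ≤
          N * Fe y := by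
        intro y
        rw [ENNReal.tsum_mul_right]
        gcongr
        rw [ENNReal.tsum_eq_iSup_sum]
        apply iSup_le
        intro s
        have h3 : ∑ l ∈ s, W.indicator (fun _ => (1 : ℝ≥0∞)) ((l : E d) - y) =
            ((s.filter (fun l : Λ => (l : E d) - y ∈ W)).card : ℝ≥0∞) := by
          rw [Finset.card_filter]
          push_cast
          apply Finset.sum_congr rfl
          intro l _
          by_cases hx : (l : E d) - y ∈ W
          · rw [indicator_of_mem hx, if_pos hx]
          · rw [indicator_of_notMem hx, if_neg hx]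
        rw [h3]
        have h4 := hN y ((s.filter (fun l : Λ => (l : E d) - y ∈ W)).map
          (Function.Embedding.subtype _)) (by
            intro l hl
            rw [Finset.mem_map] at hl
            obtain ⟨l', hl', rfl⟩ := hl
            rw [Finset.mem_filter] at hl'
            exact ⟨l'.2, hl'.2⟩)
        rw [Finset.card_map] at h4
        exact_mod_cast h4
      refine (lintegral_mono h2).trans ?_
      rw [lintegral_const_mul _ hFem]
      gcongr
      rw [hFe, ← ofReal_integral_eq_lintegral_ofReal hint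
        (Filter.Eventually.of_forall fun u => by positivity), hval]
    · intro l
      apply AEMeasurable.mul _ hFem.aemeasurable
      apply Measurable.aemeasurable
      exact (measurable_const.indicator hW).comp (by fun_prop)
  rw [hB, ENNReal.ofReal_mul hv.le] at hC
  have hΩ : volume Ω = ENNReal.ofReal (volume.real Ω) :=
    (ENNReal.ofReal_toReal hb.measure_lt_top.ne).symm
  rw [hΩ]
  have hpos : ENNReal.ofReal (volume.real Ω) ≠ 0 := by
    rw [Ne, ENNReal.ofReal_eq_zero, not_le]
    exact hv
  have h5 : ENNReal.ofReal (volume.real Ω) * (volume W * ENNReal.ofReal (volume.real Ω)) ≤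
      ENNReal.ofReal (volume.real Ω) * N := by
    calc ENNReal.ofReal (volume.real Ω) * (volume W * ENNReal.ofReal (volume.real Ω))
        = ENNReal.ofReal (volume.real Ω) * ENNReal.ofReal (volume.real Ω) * volume W := by ring
      _ ≤ N * ENNReal.ofReal (volume.real Ω) := hC
      _ = _ := by ring
  exact (ENNReal.mul_le_mul_iff_right hpos ENNReal.ofReal_ne_top).1 h5

end Pool.Agent.H414R3
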